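import Pool.Agent.Run7.h912.US.Prog

set_option autoImplicit false

/-! # Slopes of bounded height -/

open Finset

namespace Run7.h912.US

theorem build2 (Zs Ys S : Finset ℚ) (s : ℚ) (B : ℕ) (hZ : Zs.Nonempty) (hY : Ys.Nonempty)
    (hYB : Ys.card ≤ B)
    (hadd : ∀ r ∈ S, ((Zs ×ˢ Ys).image fun p => p.1 + (r - s) * p.2).card ≤ B)
    (hinj : ∀ z ∈ Zs, ∀ z' ∈ Zs, ∀ y ∈ Ys, ∀ y' ∈ Ys, z - z' = (1 + s) * (y - y') → y = y') :
    ∃ A : Finset (ℤ × ℤ), A.Nonempty ∧ big S A ≤ B ∧
      (proj (-1) A).card = Zs.card * Ys.card := by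
  classical
  obtain ⟨A, hA1, hA2, hA3⟩ := Pool.Agent.R470.AK.int_points
    ((Zs ×ˢ Ys).image (fun p => (p.1 - s * p.2, p.2)))
  have hproj : ∀ r : ℚ, (proj r A).card = ((Zs ×ˢ Ys).image fun p => p.1 + (r - s) * p.2).card := by
    intro r
    have h1 : ((Zs ×ˢ Ys).image (fun p => (p.1 - s * p.2, p.2))).image
        (fun p : ℚ × ℚ => p.1 + r * p.2) = (Zs ×ˢ Ys).image fun p => p.1 + (r - s) * p.2 := by
      rw [image_image]
      have : ((fun p : ℚ × ℚ => p.1 + r * p.2) ∘ fun p => (p.1 - s * p.2, p.2)) =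
          fun p : ℚ × ℚ => p.1 + (r - s) * p.2 := by
        funext p
        simp only [Function.comp]
        ring
      rw [this]
    rw [← h1]
    exact hA2 r
  refine ⟨A, hA1 ((hZ.product hY).image _), max_le ?_ (Finset.sup_le fun r hr => ?_), ?_⟩
  · rw [hA3]
    refine le_trans (card_le_card ?_) hYB
    intro y hy
    obtain ⟨q, hq, rfl⟩ := mem_image.1 hy
    obtain ⟨p, hp, rfl⟩ := mem_image.1 hq
    exact (mem_product.1 hp).2
  · rw [hproj r]
    exact hadd r hr
  · rw [hproj, card_image_of_injOn, card_product]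
    rintro ⟨z, y⟩ hp ⟨z', y'⟩ hp' h
    rw [mem_coe, mem_product] at hp hp'
    simp only at h hp hp'
    have h1 : z - z' = (1 + s) * (y - y') := by linear_combination h
    have hy := hinj z hp.1 z' hp'.1 y hp.2 y' hp'.2 h1
    subst hy
    have : z = z' := by linear_combination h1
    rw [this]

/-- a negative exponent -/
theorem neg_exp (S : Finset ℚ) (κ : ℝ) (hneg : κ < 0) (C : ℝ) :
    ∃ A : Finset (ℤ × ℤ), C * (big S A : ℝ) ^ κ < (proj (-1) A).card := by
  obtain ⟨N, hN⟩ := exists_nat_gt |C|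
  refine ⟨(range N).image (fun i : ℕ => ((i : ℤ), (0 : ℤ))), ?_⟩
  have hN0 : 0 < N := by
    have : (0 : ℝ) < N := (abs_nonneg C).trans_lt hN
    exact_mod_cast this
  have hne : ((range N).image (fun i : ℕ => ((i : ℤ), (0 : ℤ)))).Nonempty :=
    (nonempty_range_iff.2 hN0.ne').image _
  have hb : (1 : ℝ) ≤ big S ((range N).image (fun i : ℕ => ((i : ℤ), (0 : ℤ)))) := by
    exact_mod_cast (Pool.Agent.R470.AK.big_pos hne :
      1 ≤ big S ((range N).image (fun i : ℕ => ((i : ℤ), (0 : ℤ)))))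
  have hc : (proj (-1) ((range N).image (fun i : ℕ => ((i : ℤ), (0 : ℤ))))).card = N := by
    unfold Pool.Agent.R470.AK.proj
    rw [image_image, card_image_of_injective, card_range]
    intro a b hab
    simp only [Function.comp] at hab
    have h1 : (a : ℚ) = b := by linear_combination hab
    exact_mod_cast h1
  rw [hc]
  have h1 : (big S ((range N).image (fun i : ℕ => ((i : ℤ), (0 : ℤ)))) : ℝ) ^ κ ≤ 1 :=
    Real.rpow_le_one_of_one_le_of_nonpos hb hneg.le
  calc C * (big S ((range N).image (fun i : ℕ => ((i : ℤ), (0 : ℤ)))) : ℝ) ^ κ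
      ≤ |C| * (big S ((range N).image (fun i : ℕ => ((i : ℤ), (0 : ℤ)))) : ℝ) ^ κ :=
        mul_le_mul_of_nonneg_right (le_abs_self C) (Real.rpow_nonneg (Nat.cast_nonneg _) _)
    _ ≤ |C| * 1 := mul_le_mul_of_nonneg_left h1 (abs_nonneg _)
    _ < N := by rw [mul_one]; exact hN

/-- the values of `i + q j` -/
theorem height_count (q : ℚ) (L h : ℕ) (hh : 1 ≤ h) (hL : 1 ≤ L) (hq : ht q ≤ L) :
    ((range h ×ˢ range h).image fun p : ℕ × ℕ => (p.1 : ℚ) + q * p.2).card ≤ h * (L + 1) ^ 2 := by
  have hn : q.num.natAbs ≤ L := (le_max_left _ _).trans hq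
  have hd : q.den ≤ L := (le_max_right _ _).trans hq
  have hd0 : (q.den : ℚ) ≠ 0 := by exact_mod_cast q.den_pos.ne'
  have h1 : ((range h ×ˢ range h).image fun p : ℕ × ℕ => (p.1 : ℚ) + q * p.2) ⊆
      (Icc (-((L * (h - 1) : ℕ) : ℤ)) ((2 * (L * (h - 1)) : ℕ) : ℤ)).image
        fun m : ℤ => (m : ℚ) / q.den := by
    intro v hv
    obtain ⟨⟨i, j⟩, hp, rfl⟩ := mem_image.1 hv
    simp only [mem_product, mem_range] at hp
    refine mem_image.2 ⟨(q.den : ℤ) * i + q.num * j, ?_, ?_⟩
    · have e1 : (q.den : ℤ) * i ≤ ((L * (h - 1) : ℕ) : ℤ) := by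
        have : q.den * i ≤ L * (h - 1) := Nat.mul_le_mul hd (by omega)
        exact_mod_cast this
      have e2 : (0 : ℤ) ≤ (q.den : ℤ) * i := by positivity
      have e3 : |q.num * j| ≤ ((L * (h - 1) : ℕ) : ℤ) := by
        have : q.num.natAbs * j ≤ L * (h - 1) := Nat.mul_le_mul hn (by omega)
        rw [abs_mul, Int.abs_eq_natAbs, Nat.abs_cast]
        exact_mod_cast this
      have e4 := abs_le.1 e3
      rw [mem_Icc]
      constructor
      · linarith [e4.1]
      · push_cast at e1 e4 ⊢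
        linarith [e4.2]
    · simp only
      push_cast
      have : (q.num : ℚ) = q * q.den := (Rat.mul_den_eq_num q).symm
      rw [this]
      field_simp
  calc _ ≤ _ := card_le_card h1
    _ ≤ (Icc (-((L * (h - 1) : ℕ) : ℤ)) ((2 * (L * (h - 1)) : ℕ) : ℤ)).card := card_image_le
    _ = 3 * (L * (h - 1)) + 1 := by rw [Int.card_Icc]; omega
    _ ≤ 3 * (L * h) := by
        obtain ⟨k, rfl⟩ : ∃ k, h = k + 1 := ⟨h - 1, by omega⟩
        have : L * (k + 1) = L * k + L := by ring
        rw [this, Nat.add_sub_cancel]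
        omega
    _ ≤ _ := by nlinarith [Nat.zero_le (L * L * h), Nat.zero_le h, mul_le_mul' hL (le_refl h),
        mul_le_mul' (mul_le_mul' hL (le_refl L)) (le_refl h)]

/-- the lower bound for slopes of bounded height -/
theorem height_lower (s w : ℚ) (hw : w ≠ 0) (L : ℕ) (hL : 1 ≤ L) (S : Finset ℚ)
    (hS : ∀ r ∈ S, ∃ q : ℚ, ht q ≤ L ∧ r = s + q * w) (κ : ℝ)
    (hκ : κ < 2 - 4 * (Real.log (L + 1) / Real.log (ht ((1 + s) / w) * (L + 1))))
    (C : ℝ) : ∃ A : Finset (ℤ × ℤ), C * (big S A : ℝ) ^ κ < (proj (-1) A).card := by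
  classical
  set q : ℚ := (1 + s) / w with hq
  set h : ℕ := ht q with hh
  have hh1 : 1 ≤ h := one_le_ht q
  have hLR : (1 : ℝ) ≤ L := by exact_mod_cast hL
  have hhR : (1 : ℝ) ≤ h := by exact_mod_cast hh1
  rcases lt_or_ge κ 0 with hneg | hκ0
  · exact neg_exp S κ hneg C
  -- the box
  set Zs : Finset ℚ := (range h).image (fun i : ℕ => (i : ℚ)) with hZs
  set Ys : Finset ℚ := (range h).image (fun i : ℕ => (i : ℚ) / w) with hYs
  have hZc : Zs.card = h := by
    rw [hZs, card_image_of_injective _ Nat.cast_injective, card_range]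
  have hYc : Ys.card = h := by
    rw [hYs, card_image_of_injective, card_range]
    intro a b hab
    have h1 : (a : ℚ) = b := by
      have := congrArg (fun x => x * w) hab
      simpa [div_mul_cancel₀ _ hw] using this
    exact_mod_cast h1
  have hr : (range h).Nonempty := nonempty_range_iff.2 (by omega)
  have hhle : h ≤ h * (L + 1) ^ 2 := Nat.le_mul_of_pos_right h (by positivity)
  obtain ⟨A, hA, hbig, hdiff⟩ := build2 Zs Ys S s (h * (L + 1) ^ 2) (hr.image _) (hr.image _)
    (by rw [hYc]; exact hhle)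
    (by
      intro r hrS
      obtain ⟨u, hu, rfl⟩ := hS r hrS
      refine le_trans (card_le_card ?_) (height_count u L h hh1 hL hu)
      intro v hv
      obtain ⟨p, hp, rfl⟩ := mem_image.1 hv
      rw [mem_product] at hp
      obtain ⟨i, hi, hi'⟩ := mem_image.1 hp.1
      obtain ⟨j, hj, hj'⟩ := mem_image.1 hp.2
      refine mem_image.2 ⟨(i, j), mem_product.2 ⟨hi, hj⟩, ?_⟩
      simp only
      rw [← hi', ← hj']
      field_simp
      ring)
    (by
      intro z hz z' hz' y hy y' hy' he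
      obtain ⟨i, hi, rfl⟩ := mem_image.1 hz
      obtain ⟨i', hi', rfl⟩ := mem_image.1 hz'
      obtain ⟨j, hj, rfl⟩ := mem_image.1 hy
      obtain ⟨j', hj', rfl⟩ := mem_image.1 hy'
      rw [mem_range] at hi hi' hj hj'
      by_contra hne
      have hjj : (j : ℚ) ≠ j' := fun h1 => hne (by rw [h1])
      have h1 : q * ((j : ℤ) - (j' : ℤ) : ℤ) = ((i : ℤ) - (i' : ℤ) : ℤ) := by
        push_cast
        rw [hq]
        have h2 : (1 + s) / w * ((j : ℚ) - j') = (1 + s) * ((j : ℚ) / w - j' / w) := by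
          field_simp
        rw [h2, ← he]
      have hjz : ((j : ℤ) - (j' : ℤ)) ≠ 0 := by
        intro h2
        apply hjj
        have : (j : ℤ) = j' := by omega
        exact_mod_cast this
      have h3 : q.num * ((j : ℤ) - j') = ((i : ℤ) - i') * q.den := by
        have h4 : (q.num : ℚ) * (((j : ℤ) - (j' : ℤ) : ℤ) : ℚ) =
            (((i : ℤ) - (i' : ℤ) : ℤ) : ℚ) * (q.den : ℚ) := by
          rw [← h1, ← Rat.mul_den_eq_num q]
          ring
        exact_mod_cast h4
      have hcop : IsCoprime q.num (q.den : ℤ) := by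
        rw [Int.isCoprime_iff_nat_coprime, Int.natAbs_natCast]
        exact q.reduced
      have hd : (q.den : ℤ) ∣ (j : ℤ) - j' := by
        have : (q.den : ℤ) ∣ q.num * ((j : ℤ) - j') := ⟨(i : ℤ) - i', by rw [h3]; ring⟩
        exact hcop.symm.dvd_of_dvd_mul_left this
      have hn : q.num ∣ (i : ℤ) - i' := by
        have : q.num ∣ ((i : ℤ) - i') * q.den := ⟨(j : ℤ) - j', h3.symm⟩
        exact hcop.dvd_of_dvd_mul_right this
      have hden_lt : q.den < h := by
        have h5 := Int.le_of_dvd (abs_pos.2 hjz) ((dvd_abs _ _).2 hd)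
        have h6 : |(j : ℤ) - j'| < h := by
          rw [abs_lt]; constructor <;> omega
        omega
      have hnum_lt : q.num.natAbs < h := by
        by_cases hi0 : (i : ℤ) - i' = 0
        · rw [hi0, zero_mul] at h3
          have h7 : q.num = 0 := by
            rcases mul_eq_zero.1 h3 with h8 | h8
            · exact h8
            · exact absurd h8 hjz
          rw [h7]
          simp
          omega
        · have h5' : |q.num| ≤ |(i : ℤ) - i'| := by
            have h9 := Int.le_of_dvd (abs_pos.2 hi0) ((abs_dvd_abs _ _).2 hn)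
            exact h9
          have h6 : |(i : ℤ) - i'| < h := by
            rw [abs_lt]; constructor <;> omega
          rw [Int.abs_eq_natAbs] at h5'
          omega
      have : h < h := by
        conv_lhs => rw [hh, ht]
        exact max_lt hnum_lt hden_lt
      exact lt_irrefl _ this)
  refine amp S κ hκ0 A hA ?_ C
  have hlogL : 0 < Real.log (L + 1) := Real.log_pos (by linarith)
  have hlogh : 0 ≤ Real.log h := Real.log_nonneg hhR
  have hsum : Real.log (h * (L + 1)) = Real.log h + Real.log (L + 1) :=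
    Real.log_mul (by positivity) (by positivity)
  rw [hsum] at hκ
  have hS0 : 0 < Real.log h + Real.log (L + 1) := by linarith
  have hκ2 : κ ≤ 2 := by
    have : 0 ≤ 4 * (Real.log (L + 1) / (Real.log h + Real.log (L + 1))) := by positivity
    linarith
  have h4 : κ * (Real.log h + 2 * Real.log (L + 1)) < 2 * Real.log h := by
    have h5 := mul_lt_mul_of_pos_right hκ hS0
    have h6 : (2 - 4 * (Real.log (L + 1) / (Real.log h + Real.log (L + 1)))) *
        (Real.log h + Real.log (L + 1)) = 2 * Real.log h - 2 * Real.log (L + 1) := by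
      field_simp
      ring
    have h7 : κ * Real.log (L + 1) ≤ 2 * Real.log (L + 1) :=
      mul_le_mul_of_nonneg_right hκ2 hlogL.le
    linarith
  have h7 : ((h * (L + 1) ^ 2 : ℕ) : ℝ) ^ κ < ((h * h : ℕ) : ℝ) := by
    have hp1 : (0 : ℝ) < ((h * (L + 1) ^ 2 : ℕ) : ℝ) := by positivity
    have hp2 : (0 : ℝ) < ((h * h : ℕ) : ℝ) := by positivity
    rw [← Real.log_lt_log_iff (Real.rpow_pos_of_pos hp1 _) hp2, Real.log_rpow hp1]
    push_cast
    rw [Real.log_mul (by positivity) (by positivity), Real.log_mul (by positivity) (by positivity),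
      Real.log_pow]
    push_cast
    linarith
  rw [hdiff, hZc, hYc]
  refine lt_of_le_of_lt (Real.rpow_le_rpow (Nat.cast_nonneg _) ?_ hκ0) h7
  exact_mod_cast hbig

end Run7.h912.US
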