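import Pool.Agent.Run7.h912.US.Upper

set_option autoImplicit false

/-! # Amplification, and the upper bound for all sets -/

open Finset
open scoped Pointwise

namespace Run7.h912.US

/-- representatives of the differences -/
theorem reps (A : Finset (ℤ × ℤ)) : ∃ A₁ ⊆ A, A₁.card = (proj (-1) A).card ∧
    Set.InjOn (fun p : ℤ × ℤ => p.1 - p.2) (A₁ : Set (ℤ × ℤ)) ∧ (A.Nonempty → A₁.Nonempty) := by
  classical
  have h1 : ∀ q ∈ proj (-1) A, ∃ p ∈ A, (p.1 : ℚ) + (-1) * (p.2 : ℚ) = q := by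
    intro q hq
    rw [Pool.Agent.R470.AK.proj, mem_image] at hq
    obtain ⟨p, hp, h⟩ := hq
    exact ⟨p, hp, h⟩
  choose! f hf1 hf2 using h1
  refine ⟨(proj (-1) A).image f, ?_, ?_, ?_, ?_⟩
  · intro p hp
    obtain ⟨q, hq, rfl⟩ := mem_image.1 hp
    exact hf1 q hq
  · apply card_image_of_injOn
    intro q hq q' hq' h
    rw [← hf2 q hq, ← hf2 q' hq', h]
  · intro p hp p' hp' h
    rw [mem_coe] at hp hp'
    obtain ⟨q, hq, rfl⟩ := mem_image.1 hp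
    obtain ⟨q', hq', rfl⟩ := mem_image.1 hp'
    have h2 : q = q' := by
      rw [← hf2 q hq, ← hf2 q' hq']
      simp only at h
      have h3 : ((f q).1 : ℚ) - (f q).2 = (f q').1 - (f q').2 := by exact_mod_cast h
      linear_combination h3
    rw [h2]
  · rintro ⟨p, hp⟩
    exact ⟨_, mem_image_of_mem f (mem_image_of_mem _ hp)⟩

theorem big_mono_set (S : Finset ℚ) {A A' : Finset (ℤ × ℤ)} (h : A' ⊆ A) : big S A' ≤ big S A :=
  Pool.Agent.N326.AK.big_mono_set S h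

/-- amplification -/
theorem amp (S : Finset ℚ) (κ : ℝ) (hκ : 0 ≤ κ) (A : Finset (ℤ × ℤ)) (hA : A.Nonempty)
    (h : (big S A : ℝ) ^ κ < (proj (-1) A).card) (C : ℝ) :
    ∃ A' : Finset (ℤ × ℤ), C * (big S A' : ℝ) ^ κ < (proj (-1) A').card := by
  classical
  obtain ⟨A₁, hsub, hcard, hinj, hne⟩ := reps A
  have hA₁ := hne hA
  set b : ℝ := (big S A : ℝ) ^ κ with hb
  have hb1 : 1 ≤ b := by
    have : 1 ≤ big S A := Pool.Agent.R470.AK.big_pos hA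
    exact Real.one_le_rpow (by exact_mod_cast this) hκ
  have hb0 : 0 < b := by linarith
  set M₁ : ℝ := ((proj (-1) A).card : ℝ) with hM₁
  have hr : 1 < M₁ / b := by rw [lt_div_iff₀ hb0]; linarith
  obtain ⟨m, hm⟩ := pow_unbounded_of_one_lt |C| hr
  -- a bound for the coordinates
  obtain ⟨M, hM⟩ : ∃ M : ℕ, ∀ p ∈ A₁, |p.1| ≤ (M : ℤ) ∧ |p.2| ≤ (M : ℤ) := by
    refine ⟨∑ p ∈ A₁, (p.1.natAbs + p.2.natAbs), fun p hp => ?_⟩
    have h1 : p.1.natAbs + p.2.natAbs ≤ ∑ p ∈ A₁, (p.1.natAbs + p.2.natAbs) :=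
      Finset.single_le_sum (f := fun p : ℤ × ℤ => p.1.natAbs + p.2.natAbs)
        (fun _ _ => Nat.zero_le _) hp
    rw [Int.abs_eq_natAbs, Int.abs_eq_natAbs]
    constructor <;> omega
  have hinj' : ∀ p ∈ A₁, ∀ q ∈ A₁, p ≠ q → p.1 - p.2 ≠ q.1 - q.2 :=
    fun p hp q hq hne h => hne (hinj hp hq h)
  set B : ℕ := 8 * M * M + 6 * M + 1 with hB
  set A' := Pool.Agent.N326.AK.pw B A₁ m with hA'
  have hlip := Pool.Agent.N326.AK.pw_lip hM hinj' rfl (le_refl B) m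
  have hc : A'.card = A₁.card ^ m := Pool.Agent.N326.AK.pw_card hM hinj' (le_refl B) m
  have hproj : (proj (-1) A').card = A'.card := by
    unfold Pool.Agent.R470.AK.proj
    apply card_image_of_injOn
    intro p hp q hq h
    by_contra hne
    have h1 := hlip p hp q hq hne
    have h2 : (p.1 - p.2) - (q.1 - q.2) = 0 := by
      simp only at h
      have h3 : ((p.1 : ℚ) - p.2) - (q.1 - q.2) = 0 := by linear_combination h
      exact_mod_cast h3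
    rw [h2, abs_zero, mul_zero] at h1
    have := abs_nonneg (p.2 - q.2)
    omega
  refine ⟨A', ?_⟩
  have hbig : (big S A' : ℝ) ≤ (big S A : ℝ) ^ m := by
    have h1 : Pool.Agent.N326.AK.big S A' ≤ (Pool.Agent.N326.AK.big S A₁) ^ m :=
      Pool.Agent.N326.AK.pw_big S m
    have h2 : big S A' ≤ (big S A₁) ^ m := h1
    have h3 : big S A' ≤ (big S A) ^ m := h2.trans (Nat.pow_le_pow_left (big_mono_set S hsub) m)
    exact_mod_cast h3
  have hbig2 : (big S A' : ℝ) ^ κ ≤ b ^ m := by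
    calc (big S A' : ℝ) ^ κ ≤ ((big S A : ℝ) ^ m) ^ κ :=
          Real.rpow_le_rpow (Nat.cast_nonneg _) hbig hκ
      _ = b ^ m := by
          rw [hb, ← Real.rpow_natCast, ← Real.rpow_natCast, ← Real.rpow_mul (Nat.cast_nonneg _),
            ← Real.rpow_mul (Nat.cast_nonneg _), mul_comm]
  have hbm : 0 < b ^ m := by positivity
  calc C * (big S A' : ℝ) ^ κ ≤ |C| * (big S A' : ℝ) ^ κ :=
        mul_le_mul_of_nonneg_right (le_abs_self C) (Real.rpow_nonneg (Nat.cast_nonneg _) _)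
    _ ≤ |C| * b ^ m := mul_le_mul_of_nonneg_left hbig2 (abs_nonneg _)
    _ < _ := ?_
  rw [hproj, hc, hcard, Nat.cast_pow, ← hM₁]
  rw [div_pow, lt_div_iff₀ hbm] at hm
  exact hm

/-- the upper bound with a constant -/
theorem upper_const (W : Finset ℚ) (hW0 : ∀ w ∈ W, w ≠ 0) {w₀ : ℚ} (hw₀ : w₀ ∈ W) (N : ℕ)
    (s P Q : ℚ) (hQ : Q ≠ 0) (hPQ : (1 + s) * Q = w₀ * P) (hcP : Ctl W w₀ P N)
    (hcQ : Ctl W w₀ Q N) (A : Finset (ℤ × ℤ)) (hA : A.Nonempty) :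
    ((proj (-1) A).card : ℝ) ≤ ((W.card + 1 : ℝ) * 2 ^ 19) *
      (big (slopes s W) A : ℝ) ^ (2 - 1 / ((129 * (2 * N + 3) : ℕ) : ℝ)) := by
  classical
  obtain ⟨A₁, hsub, hcard, hinj, hne⟩ := reps A
  have hA₁ := hne hA
  have h1 := upper_inj W hW0 hw₀ N s P Q hQ hPQ hcP hcQ A₁ hA₁ hinj
  set K₀ : ℝ := (W.card + 1 : ℝ) * 2 ^ 19 with hK₀
  set E : ℕ := 129 * (2 * N + 3) with hE
  set n₁ : ℝ := (big (slopes s W) A₁ : ℝ) with hn₁
  set n : ℝ := (big (slopes s W) A : ℝ) with hn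
  rw [hcard] at h1
  set M : ℝ := ((proj (-1) A).card : ℝ) with hM
  have hK0 : 0 < K₀ := by positivity
  have hEpos : 0 < E := by omega
  have hER : (0 : ℝ) < E := by exact_mod_cast hEpos
  have hM0 : 0 < M := by
    rw [hM, ← hcard]
    exact_mod_cast hA₁.card_pos
  have hn10 : 0 < n₁ := by
    have : 1 ≤ big (slopes s W) A₁ := Pool.Agent.R470.AK.big_pos hA₁
    rw [hn₁]
    exact_mod_cast this
  have hnn : n₁ ≤ n := by
    rw [hn₁, hn]
    exact_mod_cast big_mono_set _ hsub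
  have hn0 : 0 < n := hn10.trans_le hnn
  -- take the `E`-th root
  have h2 : n₁ ^ ((1 : ℝ) / E) ≤ K₀ * (n₁ ^ 2 / M) := by
    have h3 : (0 : ℝ) ≤ K₀ * (n₁ ^ 2 / M) := by positivity
    calc n₁ ^ ((1 : ℝ) / E) ≤ ((K₀ * (n₁ ^ 2 / M)) ^ E) ^ ((1 : ℝ) / E) :=
          Real.rpow_le_rpow hn10.le h1 (by positivity)
      _ = K₀ * (n₁ ^ 2 / M) := by
          rw [← Real.rpow_natCast, ← Real.rpow_mul h3, mul_one_div_cancel hER.ne', Real.rpow_one]
  have h4 : M * n₁ ^ ((1 : ℝ) / E) ≤ K₀ * n₁ ^ 2 := by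
    calc M * n₁ ^ ((1 : ℝ) / E) ≤ M * (K₀ * (n₁ ^ 2 / M)) := mul_le_mul_of_nonneg_left h2 hM0.le
      _ = K₀ * n₁ ^ 2 := by field_simp
  have h5 : n₁ ^ 2 = n₁ ^ (2 - 1 / (E : ℝ)) * n₁ ^ ((1 : ℝ) / E) := by
    rw [← Real.rpow_add hn10]
    norm_num
  have hr : 0 < n₁ ^ ((1 : ℝ) / E) := Real.rpow_pos_of_pos hn10 _
  have h6 : M ≤ K₀ * n₁ ^ (2 - 1 / (E : ℝ)) := by
    have h7 : M * n₁ ^ ((1 : ℝ) / E) ≤ (K₀ * n₁ ^ (2 - 1 / (E : ℝ))) * n₁ ^ ((1 : ℝ) / E) := by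
      calc M * n₁ ^ ((1 : ℝ) / E) ≤ K₀ * n₁ ^ 2 := h4
        _ = _ := by rw [h5]; ring
    exact le_of_mul_le_mul_right h7 hr
  refine h6.trans (mul_le_mul_of_nonneg_left ?_ hK0.le)
  refine Real.rpow_le_rpow hn10.le hnn ?_
  have h8 : 1 / (E : ℝ) ≤ 1 := by
    rw [div_le_one hER]
    exact_mod_cast hEpos
  linarith

/-- **the upper bound** -/
theorem upper (W : Finset ℚ) (hW0 : ∀ w ∈ W, w ≠ 0) {w₀ : ℚ} (hw₀ : w₀ ∈ W) (N : ℕ)
    (s P Q : ℚ) (hQ : Q ≠ 0) (hPQ : (1 + s) * Q = w₀ * P) (hcP : Ctl W w₀ P N)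
    (hcQ : Ctl W w₀ Q N) (A : Finset (ℤ × ℤ)) :
    ((proj (-1) A).card : ℝ) ≤
      (big (slopes s W) A : ℝ) ^ (2 - 1 / ((129 * (2 * N + 3) : ℕ) : ℝ)) := by
  by_contra hcon
  rw [not_le] at hcon
  have hA : A.Nonempty := by
    by_contra h
    rw [Finset.not_nonempty_iff_eq_empty] at h
    subst h
    have h1 : (proj (-1) ∅).card = 0 := rfl
    rw [h1] at hcon
    have := Real.rpow_nonneg (Nat.cast_nonneg (α := ℝ) (big (slopes s W) ∅))
      (2 - 1 / ((129 * (2 * N + 3) : ℕ) : ℝ))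
    simp only [Nat.cast_zero] at hcon
    linarith
  have hκ : (0 : ℝ) ≤ 2 - 1 / ((129 * (2 * N + 3) : ℕ) : ℝ) := by
    have h1 : 0 < 129 * (2 * N + 3) := by omega
    have h2 : (1 : ℝ) ≤ ((129 * (2 * N + 3) : ℕ) : ℝ) := by exact_mod_cast h1
    have h3 : 1 / ((129 * (2 * N + 3) : ℕ) : ℝ) ≤ 1 := by
      rw [div_le_one (by linarith)]
      exact h2
    linarith
  obtain ⟨A', hA'⟩ := amp _ _ hκ A hA hcon ((W.card + 1 : ℝ) * 2 ^ 19)
  have hne : A'.Nonempty := by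
    by_contra h
    rw [Finset.not_nonempty_iff_eq_empty] at h
    subst h
    have h1 : (proj (-1) ∅).card = 0 := rfl
    rw [h1] at hA'
    have h2 := Real.rpow_nonneg (Nat.cast_nonneg (α := ℝ) (big (slopes s W) ∅))
      (2 - 1 / ((129 * (2 * N + 3) : ℕ) : ℝ))
    have h3 : (0 : ℝ) ≤ (W.card + 1 : ℝ) * 2 ^ 19 := by positivity
    simp only [Nat.cast_zero] at hA'
    have := mul_nonneg h3 h2
    linarith
  exact absurd (upper_const W hW0 hw₀ N s P Q hQ hPQ hcP hcQ A' hne) (not_le.2 hA')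

end Run7.h912.US
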