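import Pool.Agent.Run7.h912.US.Amp

set_option autoImplicit false

/-! # Sets with small projections from sets of numbers -/

open Finset

namespace Run7.h912.US

theorem build (Zs Ys F' W : Finset ℚ) (s : ℚ) (hZ : Zs.Nonempty) (hY : Ys.Nonempty)
    (hZF : Zs ⊆ F') (hYF : Ys.card ≤ F'.card)
    (hadd : ∀ z ∈ Zs, ∀ y ∈ Ys, ∀ w ∈ W, z + w * y ∈ F')
    (hinj : ∀ z ∈ Zs, ∀ z' ∈ Zs, ∀ y ∈ Ys, ∀ y' ∈ Ys, z - z' = (1 + s) * (y - y') → y = y') :
    ∃ A : Finset (ℤ × ℤ), A.Nonempty ∧ big (slopes s W) A ≤ F'.card ∧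
      (proj (-1) A).card = Zs.card * Ys.card := by
  classical
  obtain ⟨A, hA1, hA2, hA3⟩ := Pool.Agent.R470.AK.int_points
    ((Zs ×ˢ Ys).image (fun p => (p.1 - s * p.2, p.2)))
  have hproj : ∀ r : ℚ, (proj r A).card = ((Zs ×ˢ Ys).image fun p => p.1 + (r - s) * p.2).card := by
    intro r
    have h1 : ((Zs ×ˢ Ys).image (fun p => (p.1 - s * p.2, p.2))).image
        (fun p : ℚ × ℚ => p.1 + r * p.2) = (Zs ×ˢ Ys).image fun p => p.1 + (r - s) * p.2 := by
      rw [image_image]
      have : ((fun p : ℚ × ℚ => p.1 + r * p.2) ∘ fun p => (p.1 - s * p.2, p.2)) =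
          fun p : ℚ × ℚ => p.1 + (r - s) * p.2 := by
        funext p
        simp only [Function.comp]
        ring
      rw [this]
    rw [← h1]
    exact hA2 r
  refine ⟨A, hA1 ((hZ.product hY).image _), max_le ?_ (Finset.sup_le fun r hr => ?_), ?_⟩
  · rw [hA3]
    refine le_trans (card_le_card ?_) hYF
    intro y hy
    obtain ⟨q, hq, rfl⟩ := mem_image.1 hy
    obtain ⟨p, hp, rfl⟩ := mem_image.1 hq
    exact (mem_product.1 hp).2
  · rw [slopes, mem_insert, mem_image] at hr
    rw [hproj r]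
    apply card_le_card
    intro v hv
    obtain ⟨p, hp, rfl⟩ := mem_image.1 hv
    rw [mem_product] at hp
    rcases hr with rfl | ⟨x, hx, rfl⟩
    · have : p.1 + (r - r) * p.2 = p.1 := by ring
      rw [this]
      exact hZF hp.1
    · have : p.1 + (s + x - s) * p.2 = p.1 + x * p.2 := by ring
      rw [this]
      exact hadd _ hp.1 _ hp.2 _ hx
  · rw [hproj, card_image_of_injOn, card_product]
    rintro ⟨z, y⟩ hp ⟨z', y'⟩ hp' h
    rw [mem_coe, mem_product] at hp hp'
    simp only at h hp hp'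
    have h1 : z - z' = (1 + s) * (y - y') := by linear_combination h
    have hy := hinj z hp.1 z' hp'.1 y hp.2 y' hp'.2 h1
    subst hy
    have : z = z' := by linear_combination h1
    rw [this]

end Run7.h912.US
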