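import Mathlib
import Pool.Agent.H217R3.AK.Graph

set_option autoImplicit false

/-! # Balog–Szemerédi–Gowers for several linear forms at once

`E` is a finite set of points `(z, y)`, `W` a set of numbers `w ≠ 0`. If `E` has at least `n ^ 2 / L`
points and at most `n` values of `z`, of `y` and of `z + w y` for each `w ∈ W`, there are sets `X`, `Y`
with `|X - X|`, `|X + w Y| ≤ (C L) ^ C n` such that `X × Y` contains many points of `E`. -/

open Finset
open scoped Pointwise

namespace Run7.h912.US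

/-- the values of `z + w y` at the points `(z, y)` of `E` -/
def img (w : ℚ) (E : Finset (ℚ × ℚ)) : Finset ℚ := E.image fun p => p.1 + w * p.2

/-- the dilate `w Y` -/
def dil (w : ℚ) (Y : Finset ℚ) : Finset ℚ := Y.image fun y => w * y

theorem mem_dil {w v : ℚ} {Y : Finset ℚ} : v ∈ dil w Y ↔ ∃ y ∈ Y, w * y = v := by
  simp [dil]

open Classical in
theorem core (E : Finset (ℚ × ℚ)) (hE : E.Nonempty) (W : Finset ℚ) (hW : W.Nonempty)
    (hW0 : ∀ w ∈ W, w ≠ 0) (n L : ℝ) (hn : 0 < n)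
    (hz : ((E.image Prod.fst).card : ℝ) ≤ n) (hy : ((E.image Prod.snd).card : ℝ) ≤ n)
    (hw : ∀ w ∈ W, ((img w E).card : ℝ) ≤ n) (hL : 0 < L) (hEn : n ^ 2 ≤ L * E.card) :
    ∃ X Y : Finset ℚ, X.Nonempty ∧ Y.Nonempty ∧ (X.card : ℝ) ≤ n ∧ (Y.card : ℝ) ≤ n ∧
      n ≤ 4 * L ^ 2 * X.card ∧ n ≤ 32 * L ^ 3 * Y.card ∧
      ((X - X).card : ℝ) ≤ 2 ^ 10 * L ^ 8 * n ∧
      (∀ w ∈ W, ((X + dil w Y).card : ℝ) ≤ 2 ^ 17 * L ^ 12 * n) ∧
      n ^ 2 ≤ 128 * L ^ 5 * (E.filter fun p => p.1 ∈ X ∧ p.2 ∈ Y).card := by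
  set Z : Finset ℚ := E.image Prod.fst with hZdef
  set Y : Finset ℚ := E.image Prod.snd with hYdef
  have hZne : Z.Nonempty := hE.image _
  have hYne : Y.Nonempty := hE.image _
  have hZc : (0 : ℝ) < Z.card := by exact_mod_cast hZne.card_pos
  have hYc : (0 : ℝ) < Y.card := by exact_mod_cast hYne.card_pos
  set adj : ℚ → ℚ → Prop := fun z y => (z, y) ∈ E with hadj
  have hEsub : E ⊆ Z ×ˢ Y := by
    intro p hp
    exact mem_product.2 ⟨mem_image_of_mem _ hp, mem_image_of_mem _ hp⟩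
  -- sum of the degrees
  have hdeg : ∑ y ∈ Y, ((Z.filter (fun x => adj x y)).card : ℝ) = E.card := by
    have h1 : E = (Z ×ˢ Y).filter (fun p => adj p.1 p.2) := by
      ext p
      simp only [mem_filter, hadj]
      exact ⟨fun h => ⟨hEsub h, h⟩, fun h => h.2⟩
    have h2 : E.card = ∑ y ∈ Y, (Z.filter (fun x => adj x y)).card := by
      conv_lhs => rw [h1]
      rw [Finset.card_filter, Finset.sum_product_right]
      exact Finset.sum_congr rfl fun y _ => (Finset.card_filter _ _).symm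
    rw [h2]
    push_cast
    rfl
  have hEZY : (E.card : ℝ) ≤ Z.card * Y.card := by
    have := Finset.card_le_card hEsub
    rw [Finset.card_product] at this
    exact_mod_cast this
  have hE0 : (0 : ℝ) < E.card := by exact_mod_cast hE.card_pos
  obtain ⟨X1, hX1, X', hX', hc1, hc2, hgood⟩ := Pool.Agent.H217R3.AK.graph Z Y adj L hL hZne hYne (by
    have h1 : (Z.card : ℝ) * Y.card ≤ L * E.card := by
      refine le_trans ?_ hEn
      rw [sq]
      exact mul_le_mul hz hy hYc.le hn.le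
    rw [← hdeg] at h1
    convert h1)
  have hx1 : (0 : ℝ) < X1.card := by
    by_contra h
    have : 2 * L * (X1.card : ℝ) ≤ 0 :=
      mul_nonpos_of_nonneg_of_nonpos (by positivity) (not_lt.1 h)
    linarith
  have hX'c : (0 : ℝ) < X'.card := by linarith
  have hX'Z : X' ⊆ Z := hX'.trans hX1
  have hX'n : (X'.card : ℝ) ≤ n := le_trans (by exact_mod_cast card_le_card hX'Z) hz
  have hYn : (n : ℝ) ≤ L * Y.card := by
    have h1 : n ^ 2 ≤ L * (n * Y.card) :=
      hEn.trans (mul_le_mul_of_nonneg_left (hEZY.trans (mul_le_mul_of_nonneg_right hz hYc.le)) hL.le)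
    have h2 : n * n ≤ n * (L * Y.card) := by nlinarith
    exact le_of_mul_le_mul_left h2 hn
  have hZn : (n : ℝ) ≤ L * Z.card := by
    have h1 : n ^ 2 ≤ L * (Z.card * n) :=
      hEn.trans (mul_le_mul_of_nonneg_left (hEZY.trans (mul_le_mul_of_nonneg_left hy hZc.le)) hL.le)
    have h2 : n * n ≤ n * (L * Z.card) := by nlinarith
    exact le_of_mul_le_mul_left h2 hn
  have hX1n : n ≤ 2 * L ^ 2 * X1.card := by
    calc n ≤ L * Z.card := hZn
      _ ≤ L * (2 * L * X1.card) := mul_le_mul_of_nonneg_left hc1 hL.le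
      _ = _ := by ring
  have hX'n2 : n ≤ 4 * L ^ 2 * X'.card := by
    calc n ≤ 2 * L ^ 2 * X1.card := hX1n
      _ ≤ 2 * L ^ 2 * (2 * X'.card) := mul_le_mul_of_nonneg_left hc2 (by positivity)
      _ = _ := by ring
  set c : ℝ := (Y.card : ℝ) / (16 * L ^ 2) with hc
  have hc0 : 0 < c := by positivity
  have hcn : n ≤ 16 * L ^ 3 * c := by
    have : 16 * L ^ 3 * c = L * Y.card := by
      rw [hc]; field_simp
    rw [this]; exact hYn
  -- the difference set
  have hD : ((X' - X').card : ℝ) ≤ 2 ^ 10 * L ^ 8 * n := by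
    obtain ⟨w, hwW⟩ := hW
    have hw0 := hW0 w hwW
    set P : Finset ℚ := img w E with hP
    have hPn : (P.card : ℝ) ≤ n := hw w hwW
    have hmemP : ∀ z y, adj z y → z + w * y ∈ P := fun z y h => mem_image_of_mem _ h
    have hrep : ∀ d : ℚ, ∃ p : ℚ × ℚ, d ∈ X' - X' → p.1 ∈ X' ∧ p.2 ∈ X' ∧ p.1 - p.2 = d := by
      intro d
      by_cases hd : d ∈ X' - X'
      · obtain ⟨u, hu, v, hv, huv⟩ := Finset.mem_sub.1 hd
        exact ⟨(u, v), fun _ => ⟨hu, hv, huv⟩⟩
      · exact ⟨0, fun h => absurd h hd⟩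
    choose p hp using hrep
    set Nb : ℚ → ℚ → Finset ℚ := fun x z => Y.filter (fun y => adj x y ∧ adj z y) with hNb
    set Zz : ℚ → ℚ → Finset ℚ := fun x x' => X1.filter (fun z =>
          ((Y.card : ℝ) ≤ 16 * L ^ 2 * (Y.filter (fun y => adj x y ∧ adj z y)).card) ∧
          ((Y.card : ℝ) ≤ 16 * L ^ 2 * (Y.filter (fun y => adj x' y ∧ adj z y)).card))
      with hZz
    set Ω : Finset (Σ _ : ℚ, Σ _ : ℚ, ℚ × ℚ) := (X' - X').sigma fun d =>
      (Zz (p d).1 (p d).2).sigma fun z => (Nb (p d).1 z) ×ˢ (Nb (p d).2 z) with hΩ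
    have hΩle : Ω.card ≤ P.card ^ 4 := by
      have h4 : P.card ^ 4 = (P ×ˢ P ×ˢ P ×ˢ P).card := by
        simp only [Finset.card_product]; ring
      rw [h4]
      apply Finset.card_le_card_of_injOn (fun t : (Σ _ : ℚ, Σ _ : ℚ, ℚ × ℚ) =>
        ((p t.1).1 + w * t.2.2.1, t.2.1 + w * t.2.2.1, t.2.1 + w * t.2.2.2,
          (p t.1).2 + w * t.2.2.2))
      · rintro ⟨d, z, y1, y2⟩ ht
        simp only [hΩ, mem_coe, Finset.mem_sigma, mem_product, hNb, mem_filter] at ht ⊢
        exact ⟨hmemP _ _ ht.2.2.1.2.1, hmemP _ _ ht.2.2.1.2.2, hmemP _ _ ht.2.2.2.2.2,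
          hmemP _ _ ht.2.2.2.2.1⟩
      · rintro ⟨d, z, y1, y2⟩ ht ⟨d', z', y1', y2'⟩ ht' h
        simp only [hΩ, mem_coe, Finset.mem_sigma] at ht ht'
        simp only [Prod.mk.injEq] at h
        obtain ⟨h1, h2, h3, h4⟩ := h
        have hd : d = d' := by
          rw [← (hp d ht.1).2.2, ← (hp d' ht'.1).2.2]
          linarith
        subst hd
        have hy1 : y1 = y1' := mul_left_cancel₀ hw0 (add_left_cancel h1)
        have hy2 : y2 = y2' := mul_left_cancel₀ hw0 (add_left_cancel h4)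
        subst hy1
        subst hy2
        have hz : z = z' := add_right_cancel h2
        subst hz
        rfl
    have hΩge : ((X' - X').card : ℝ) * ((X1.card : ℝ) / 2 * c ^ 2) ≤ Ω.card := by
      rw [hΩ, Finset.card_sigma, Nat.cast_sum, ← nsmul_eq_mul]
      apply Finset.card_nsmul_le_sum
      intro d hd
      obtain ⟨hp1, hp2, _⟩ := hp d hd
      rw [Finset.card_sigma, Nat.cast_sum]
      have h1 := hgood _ hp1 _ hp2
      have h1' : (X1.card : ℝ) ≤ 2 * (Zz (p d).1 (p d).2).card := by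
        simp only [hZz]
        convert h1
      have h2 : (X1.card : ℝ) / 2 ≤ (Zz (p d).1 (p d).2).card := by linarith
      calc (X1.card : ℝ) / 2 * c ^ 2 ≤ (Zz (p d).1 (p d).2).card * c ^ 2 :=
            mul_le_mul_of_nonneg_right h2 (sq_nonneg _)
        _ ≤ _ := by
            rw [← nsmul_eq_mul]
            apply Finset.card_nsmul_le_sum
            intro z hz
            simp only [hZz, mem_filter] at hz
            have h3 : c ≤ ((Nb (p d).1 z).card : ℝ) := by
              rw [hc, div_le_iff₀ (by positivity)]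
              simp only [hNb]
              nlinarith [hz.2.1]
            have h4 : c ≤ ((Nb (p d).2 z).card : ℝ) := by
              rw [hc, div_le_iff₀ (by positivity)]
              simp only [hNb]
              nlinarith [hz.2.2]
            rw [Finset.card_product, Nat.cast_mul, sq]
            exact mul_le_mul h3 h4 hc0.le (Nat.cast_nonneg _)
    have h4 : ((X' - X').card : ℝ) * ((X1.card : ℝ) / 2 * c ^ 2) ≤ n ^ 4 := by
      refine (hΩge.trans ?_).trans (pow_le_pow_left₀ (Nat.cast_nonneg _) hPn 4)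
      exact_mod_cast hΩle
    have h5 : n ^ 3 ≤ 2 ^ 10 * L ^ 8 * ((X1.card : ℝ) / 2 * c ^ 2) := by
      have h6 : n ^ 3 ≤ (2 * L ^ 2 * X1.card) * (16 * L ^ 3 * c) ^ 2 := by
        calc n ^ 3 = n * n ^ 2 := by ring
          _ ≤ _ := mul_le_mul hX1n (pow_le_pow_left₀ hn.le hcn 2) (by positivity) (by positivity)
      calc n ^ 3 ≤ _ := h6
        _ = _ := by ring
    have h7 : ((X' - X').card : ℝ) * n ^ 3 ≤ (2 ^ 10 * L ^ 8 * n) * n ^ 3 := by
      calc ((X' - X').card : ℝ) * n ^ 3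
          ≤ (X' - X').card * (2 ^ 10 * L ^ 8 * ((X1.card : ℝ) / 2 * c ^ 2)) :=
            mul_le_mul_of_nonneg_left h5 (Nat.cast_nonneg _)
        _ = 2 ^ 10 * L ^ 8 * ((X' - X').card * ((X1.card : ℝ) / 2 * c ^ 2)) := by ring
        _ ≤ 2 ^ 10 * L ^ 8 * n ^ 4 := mul_le_mul_of_nonneg_left h4 (by positivity)
        _ = _ := by ring
    exact le_of_mul_le_mul_right h7 (by positivity)
  -- degrees of the elements of `X'`
  have hdegX : ∀ x ∈ X', c ≤ ((Y.filter (fun y => adj x y)).card : ℝ) := by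
    intro x hx
    have h1 := hgood x hx x hx
    have h3 := hx1.trans_le h1
    have h4 := (mul_pos_iff_of_pos_left (by norm_num : (0 : ℝ) < 2)).1 h3
    obtain ⟨x'', hx''⟩ := Finset.card_pos.1 (Nat.cast_pos.1 h4)
    rw [mem_filter] at hx''
    have h5 : ((Y.filter (fun y => adj x y ∧ adj x'' y)).card : ℝ) ≤
        (Y.filter (fun y => adj x y)).card := by
      have h6 : (Y.filter (fun y => adj x y ∧ adj x'' y)) ⊆ Y.filter (fun y => adj x y) := by
        intro y hy
        rw [mem_filter] at hy ⊢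
        exact ⟨hy.1, hy.2.1⟩
      exact_mod_cast card_le_card h6
    have h7 : (Y.card : ℝ) ≤ 16 * L ^ 2 *
        ((Y.filter (fun y => adj x y ∧ adj x'' y)).card : ℝ) := by convert hx''.2.1
    have h8 : 16 * L ^ 2 * ((Y.filter (fun y => adj x y ∧ adj x'' y)).card : ℝ) ≤
        16 * L ^ 2 * ((Y.filter (fun y => adj x y)).card : ℝ) :=
      mul_le_mul_of_nonneg_left h5 (by positivity)
    rw [hc, div_le_iff₀ (by positivity)]
    linarith
  set Y' : Finset ℚ := Y.filter (fun y => (X'.card : ℝ) ≤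
    32 * L ^ 2 * (X'.filter (fun x => adj x y)).card) with hY'
  -- edges
  have hedges : (X'.card : ℝ) * c ≤ ∑ y ∈ Y, ((X'.filter (fun x => adj x y)).card : ℝ) := by
    have h1 : ∑ y ∈ Y, ((X'.filter (fun x => adj x y)).card : ℝ) =
        ∑ x ∈ X', ((Y.filter (fun y => adj x y)).card : ℝ) := by
      simp only [Finset.card_filter, Nat.cast_sum]
      rw [Finset.sum_comm]
    rw [h1, ← nsmul_eq_mul]
    exact Finset.card_nsmul_le_sum _ _ _ hdegX
  have hedges' : (X'.card : ℝ) * c / 2 ≤ ∑ y ∈ Y', ((X'.filter (fun x => adj x y)).card : ℝ) := by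
    have h1 : ∑ y ∈ Y, ((X'.filter (fun x => adj x y)).card : ℝ) =
        ∑ y ∈ Y', ((X'.filter (fun x => adj x y)).card : ℝ) +
        ∑ y ∈ Y.filter (fun y => ¬ (X'.card : ℝ) ≤
          32 * L ^ 2 * (X'.filter (fun x => adj x y)).card),
          ((X'.filter (fun x => adj x y)).card : ℝ) :=
      (Finset.sum_filter_add_sum_filter_not _ _ _).symm
    have h2 : ∑ y ∈ Y.filter (fun y => ¬ (X'.card : ℝ) ≤
          32 * L ^ 2 * (X'.filter (fun x => adj x y)).card),
          ((X'.filter (fun x => adj x y)).card : ℝ) ≤ (X'.card : ℝ) * c / 2 := by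
      calc _ ≤ ∑ y ∈ Y.filter (fun y => ¬ (X'.card : ℝ) ≤
          32 * L ^ 2 * (X'.filter (fun x => adj x y)).card), (X'.card : ℝ) / (32 * L ^ 2) := by
            refine Finset.sum_le_sum fun y hy => ?_
            rw [mem_filter, not_le] at hy
            rw [le_div_iff₀ (by positivity)]
            linarith [hy.2]
        _ ≤ ∑ y ∈ Y, (X'.card : ℝ) / (32 * L ^ 2) :=
            Finset.sum_le_sum_of_subset_of_nonneg (Finset.filter_subset _ _)
              fun y _ _ => by positivity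
        _ = (X'.card : ℝ) * c / 2 := by
            rw [Finset.sum_const, nsmul_eq_mul, hc]
            field_simp
            ring
    linarith
  have hY'ne : Y'.Nonempty := by
    by_contra h
    rw [Finset.not_nonempty_iff_eq_empty] at h
    rw [h, Finset.sum_empty] at hedges'
    have : 0 < (X'.card : ℝ) * c / 2 := by positivity
    linarith
  have hY'n : n ≤ 32 * L ^ 3 * Y'.card := by
    have h1 : (X'.card : ℝ) * c / 2 ≤ X'.card * Y'.card := by
      refine hedges'.trans ?_
      calc ∑ y ∈ Y', ((X'.filter (fun x => adj x y)).card : ℝ) ≤ ∑ y ∈ Y', (X'.card : ℝ) :=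
            Finset.sum_le_sum fun y _ => by exact_mod_cast card_le_card (Finset.filter_subset _ _)
        _ = _ := by rw [Finset.sum_const, nsmul_eq_mul]; ring
    have h2 : c / 2 ≤ Y'.card := by
      have h3 : (X'.card : ℝ) * (c / 2) ≤ X'.card * Y'.card := by
        calc _ = (X'.card : ℝ) * c / 2 := by ring
          _ ≤ _ := h1
      exact le_of_mul_le_mul_left h3 hX'c
    calc n ≤ 16 * L ^ 3 * c := hcn
      _ = 32 * L ^ 3 * (c / 2) := by ring
      _ ≤ _ := mul_le_mul_of_nonneg_left h2 (by positivity)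
  refine ⟨X', Y', Finset.card_pos.1 (by exact_mod_cast hX'c), hY'ne, hX'n, ?_, hX'n2, hY'n, hD, ?_, ?_⟩
  · exact le_trans (by exact_mod_cast card_le_card (Finset.filter_subset _ _)) hy
  · -- sums
    intro w hwW
    have hw0 := hW0 w hwW
    set P : Finset ℚ := img w E with hP
    have hPn : (P.card : ℝ) ≤ n := hw w hwW
    have hmemP : ∀ z y, adj z y → z + w * y ∈ P := fun z y h => mem_image_of_mem _ h
    have hrep : ∀ v : ℚ, ∃ p : ℚ × ℚ, v ∈ X' + dil w Y' → p.1 ∈ X' ∧ p.2 ∈ Y' ∧ p.1 + w * p.2 = v := by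
      intro v
      by_cases hd : v ∈ X' + dil w Y'
      · obtain ⟨x, hx, u, hu, huv⟩ := Finset.mem_add.1 hd
        obtain ⟨y, hy, rfl⟩ := mem_dil.1 hu
        exact ⟨(x, y), fun _ => ⟨hx, hy, huv⟩⟩
      · exact ⟨0, fun h => absurd h hd⟩
    choose p hp using hrep
    set Ω : Finset (Σ _ : ℚ, ℚ) := (X' + dil w Y').sigma fun v =>
      X'.filter (fun x => adj x (p v).2) with hΩ
    have hΩle : Ω.card ≤ (X' - X').card * P.card := by
      rw [← Finset.card_product]
      apply Finset.card_le_card_of_injOn (fun t : (Σ _ : ℚ, ℚ) =>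
        ((p t.1).1 - t.2, t.2 + w * (p t.1).2))
      · rintro ⟨v, x⟩ ht
        simp only [hΩ, mem_coe, Finset.mem_sigma, mem_filter, mem_product] at ht ⊢
        exact ⟨Finset.sub_mem_sub (hp v ht.1).1 ht.2.1, hmemP _ _ ht.2.2⟩
      · rintro ⟨v, x⟩ ht ⟨v', x'⟩ ht' h
        simp only [hΩ, mem_coe, Finset.mem_sigma] at ht ht'
        simp only [Prod.mk.injEq] at h
        obtain ⟨h1, h2⟩ := h
        have hd : v = v' := by
          rw [← (hp v ht.1).2.2, ← (hp v' ht'.1).2.2]
          linarith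
        subst hd
        have hz : x = x' := add_right_cancel h2
        subst hz
        rfl
    have hΩge : ((X' + dil w Y').card : ℝ) * ((X'.card : ℝ) / (32 * L ^ 2)) ≤ Ω.card := by
      rw [hΩ, Finset.card_sigma, Nat.cast_sum, ← nsmul_eq_mul]
      apply Finset.card_nsmul_le_sum
      intro v hv
      obtain ⟨hp1, hp2, _⟩ := hp v hv
      simp only [hY', mem_filter] at hp2
      rw [div_le_iff₀ (by positivity)]
      linarith [hp2.2]
    have h4 : ((X' + dil w Y').card : ℝ) * ((X'.card : ℝ) / (32 * L ^ 2)) ≤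
        (2 ^ 10 * L ^ 8 * n) * n := by
      refine hΩge.trans ?_
      calc (Ω.card : ℝ) ≤ (X' - X').card * P.card := by exact_mod_cast hΩle
        _ ≤ _ := mul_le_mul hD hPn (Nat.cast_nonneg _) (by positivity)
    have h5 : n ≤ 2 ^ 7 * L ^ 4 * ((X'.card : ℝ) / (32 * L ^ 2)) := by
      have : 2 ^ 7 * L ^ 4 * ((X'.card : ℝ) / (32 * L ^ 2)) = 4 * L ^ 2 * X'.card := by
        field_simp
        ring
      rw [this]
      exact hX'n2
    have h6 : ((X' + dil w Y').card : ℝ) * n ≤ (2 ^ 17 * L ^ 12 * n) * n := by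
      calc ((X' + dil w Y').card : ℝ) * n
          ≤ (X' + dil w Y').card * (2 ^ 7 * L ^ 4 * ((X'.card : ℝ) / (32 * L ^ 2))) :=
            mul_le_mul_of_nonneg_left h5 (Nat.cast_nonneg _)
        _ = 2 ^ 7 * L ^ 4 * ((X' + dil w Y').card * ((X'.card : ℝ) / (32 * L ^ 2))) := by ring
        _ ≤ 2 ^ 7 * L ^ 4 * ((2 ^ 10 * L ^ 8 * n) * n) :=
            mul_le_mul_of_nonneg_left h4 (by positivity)
        _ = _ := by ring
    exact le_of_mul_le_mul_right h6 hn
  · -- the points of `E` in `X' × Y'`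
    have h1 : ((E.filter fun p => p.1 ∈ X' ∧ p.2 ∈ Y').card : ℝ) =
        ∑ y ∈ Y', ((X'.filter (fun x => adj x y)).card : ℝ) := by
      have h2 : (E.filter fun p => p.1 ∈ X' ∧ p.2 ∈ Y') = (X' ×ˢ Y').filter (fun p => adj p.1 p.2) := by
        ext p
        simp only [mem_filter, mem_product, hadj]
        tauto
      have h3 : (E.filter fun p => p.1 ∈ X' ∧ p.2 ∈ Y').card =
          ∑ y ∈ Y', (X'.filter (fun x => adj x y)).card := by
        rw [h2, Finset.card_filter, Finset.sum_product_right]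
        exact Finset.sum_congr rfl fun y _ => (Finset.card_filter _ _).symm
      rw [h3]
      push_cast
      rfl
    rw [h1]
    calc n ^ 2 = n * n := by ring
      _ ≤ (4 * L ^ 2 * X'.card) * (16 * L ^ 3 * c) :=
          mul_le_mul hX'n2 hcn hn.le (by positivity)
      _ = 128 * L ^ 5 * (X'.card * c / 2) := by ring
      _ ≤ _ := mul_le_mul_of_nonneg_left hedges' (by positivity)

end Run7.h912.US
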