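import Pool.Agent.Run7.h912.US.Core

set_option autoImplicit false

/-! # Covering numbers of dilates -/

open Finset
open scoped Pointwise

namespace Run7.h912.US

/-- `r H` is covered by `ℓ` translates of `H` -/
def Cov (H : Finset ℚ) (r : ℚ) (ℓ : ℝ) : Prop :=
  ∃ F : Finset ℚ, (F.card : ℝ) ≤ ℓ ∧ ∀ h ∈ H, ∃ f ∈ F, r * h - f ∈ H

/-- `H` is a symmetric set with `0` and `H + H` is covered by `ℓ` translates of `H` -/
def Apx (H : Finset ℚ) (ℓ : ℝ) : Prop :=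
  (0 : ℚ) ∈ H ∧ (∀ h ∈ H, -h ∈ H) ∧
    ∃ F : Finset ℚ, (F.card : ℝ) ≤ ℓ ∧ ∀ h ∈ H, ∀ h' ∈ H, ∃ f ∈ F, h + h' - f ∈ H

theorem Cov.mono {H : Finset ℚ} {r : ℚ} {a b : ℝ} (h : Cov H r a) (hab : a ≤ b) : Cov H r b := by
  obtain ⟨F, h1, h2⟩ := h
  exact ⟨F, h1.trans hab, h2⟩

theorem cov_one (H : Finset ℚ) : Cov H 1 1 :=
  ⟨{0}, by simp, fun h hh => ⟨0, by simp, by simpa using hh⟩⟩

theorem cov_zero {H : Finset ℚ} (h0 : (0 : ℚ) ∈ H) : Cov H 0 1 :=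
  ⟨{0}, by simp, fun h _ => ⟨0, by simp, by simpa using h0⟩⟩

theorem Cov.neg {H : Finset ℚ} {r : ℚ} {a : ℝ} (h : Cov H r a) (hs : ∀ h ∈ H, -h ∈ H) :
    Cov H (-r) a := by
  obtain ⟨F, h1, h2⟩ := h
  refine ⟨F, h1, fun x hx => ?_⟩
  obtain ⟨f, hf, hf'⟩ := h2 (-x) (hs x hx)
  exact ⟨f, hf, by rw [neg_mul, ← mul_neg]; exact hf'⟩

theorem Cov.mul {H : Finset ℚ} {r r' : ℚ} {a b : ℝ} (h : Cov H r a) (h' : Cov H r' b) :
    Cov H (r * r') (a * b) := by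
  obtain ⟨F, h1, h2⟩ := h
  obtain ⟨F', h1', h2'⟩ := h'
  refine ⟨(F ×ˢ F').image (fun p => r * p.2 + p.1), ?_, fun x hx => ?_⟩
  · calc (((F ×ˢ F').image (fun p => r * p.2 + p.1)).card : ℝ) ≤ ((F ×ˢ F').card : ℝ) := by
          exact_mod_cast card_image_le
      _ = F.card * F'.card := by rw [card_product]; push_cast; rfl
      _ ≤ a * b := mul_le_mul h1 h1' (Nat.cast_nonneg _) ((Nat.cast_nonneg _).trans h1)
  · obtain ⟨f', hf', e'⟩ := h2' x hx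
    obtain ⟨f, hf, e⟩ := h2 _ e'
    refine ⟨r * f' + f, mem_image.2 ⟨(f, f'), mem_product.2 ⟨hf, hf'⟩, rfl⟩, ?_⟩
    have : r * r' * x - (r * f' + f) = r * (r' * x - f') - f := by ring
    rw [this]
    exact e

theorem Cov.add {H : Finset ℚ} {r r' : ℚ} {a b ℓ : ℝ} (hA : Apx H ℓ) (h : Cov H r a)
    (h' : Cov H r' b) : Cov H (r + r') (a * b * ℓ) := by
  obtain ⟨F, h1, h2⟩ := h
  obtain ⟨F', h1', h2'⟩ := h'
  obtain ⟨_, _, F₀, h3, h4⟩ := hA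
  refine ⟨((F ×ˢ F') ×ˢ F₀).image (fun p => p.1.1 + p.1.2 + p.2), ?_, fun x hx => ?_⟩
  · calc ((((F ×ˢ F') ×ˢ F₀).image (fun p => p.1.1 + p.1.2 + p.2)).card : ℝ)
        ≤ (((F ×ˢ F') ×ˢ F₀).card : ℝ) := by exact_mod_cast card_image_le
      _ = F.card * F'.card * F₀.card := by rw [card_product, card_product]; push_cast; rfl
      _ ≤ a * b * ℓ :=
          mul_le_mul (mul_le_mul h1 h1' (Nat.cast_nonneg _) ((Nat.cast_nonneg _).trans h1)) h3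
            (Nat.cast_nonneg _)
            (mul_nonneg ((Nat.cast_nonneg _).trans h1) ((Nat.cast_nonneg _).trans h1'))
  · obtain ⟨f, hf, e⟩ := h2 x hx
    obtain ⟨f', hf', e'⟩ := h2' x hx
    obtain ⟨g, hg, e''⟩ := h4 _ e _ e'
    refine ⟨f + f' + g, mem_image.2 ⟨((f, f'), g), mem_product.2 ⟨mem_product.2 ⟨hf, hf'⟩, hg⟩, rfl⟩, ?_⟩
    have : (r + r') * x - (f + f' + g) = r * x - f + (r' * x - f') - g := by ring
    rw [this]
    exact e''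

theorem cov_two {H : Finset ℚ} {ℓ : ℝ} (hA : Apx H ℓ) : Cov H 2 ℓ := by
  obtain ⟨_, _, F₀, h3, h4⟩ := hA
  refine ⟨F₀, h3, fun x hx => ?_⟩
  obtain ⟨f, hf, e⟩ := h4 x hx x hx
  exact ⟨f, hf, by rw [two_mul]; exact e⟩

/-- natural numbers, with an exponent which is logarithmic -/
theorem cov_nat {H : Finset ℚ} {ℓ : ℝ} (hA : Apx H ℓ) (hℓ : 1 ≤ ℓ) (n : ℕ) :
    Cov H (n : ℚ) (ℓ ^ (2 * Nat.size n)) := by
  induction n using Nat.binaryRec' with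
  | zero => simpa using cov_zero hA.1
  | bit b n hb ih =>
    by_cases hn : n = 0
    · subst hn
      have hbt : b = true := hb rfl
      subst hbt
      have : Cov H 1 1 := cov_one H
      simpa using this.mono (one_le_pow₀ hℓ)
    · have hs : Nat.size (Nat.bit b n) = Nat.size n + 1 := by
        rw [Nat.size_bit (by rw [Nat.bit_ne_zero_iff]; exact fun h => absurd h hn)]
      have h2 : Cov H (2 * n : ℚ) (ℓ * ℓ ^ (2 * Nat.size n)) := (cov_two hA).mul ih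
      rw [hs]
      cases b with
      | false =>
        have e : ((Nat.bit false n : ℕ) : ℚ) = 2 * n := by simp [Nat.bit_val]
        rw [e]
        refine h2.mono ?_
        rw [← pow_succ']
        exact pow_le_pow_right₀ hℓ (by omega)
      | true =>
        have e : ((Nat.bit true n : ℕ) : ℚ) = 2 * n + 1 := by simp [Nat.bit_val]
        rw [e]
        refine (Cov.add hA h2 (cov_one H)).mono ?_
        rw [mul_one, ← pow_succ', ← pow_succ]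
        exact pow_le_pow_right₀ hℓ (by omega)

theorem cov_int {H : Finset ℚ} {ℓ : ℝ} (hA : Apx H ℓ) (hℓ : 1 ≤ ℓ) (a : ℤ) :
    Cov H (a : ℚ) (ℓ ^ (2 * Nat.size a.natAbs)) := by
  rcases Int.natAbs_eq a with h | h
  · have : (a : ℚ) = (a.natAbs : ℚ) := by
      conv_lhs => rw [h]
      simp
    rw [this]
    exact cov_nat hA hℓ _
  · have : (a : ℚ) = -(a.natAbs : ℚ) := by
      conv_lhs => rw [h]
      simp
    rw [this]
    exact (cov_nat hA hℓ _).neg hA.2.1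

/-- the values of a polynomial -/
theorem cov_poly {σ : Type} (P : MvPolynomial σ ℤ) : ∃ N : ℕ, ∀ (H : Finset ℚ) (ℓ : ℝ), Apx H ℓ →
    1 ≤ ℓ → ∀ lam : σ → ℚ, (∀ i, Cov H (lam i) ℓ) → Cov H (MvPolynomial.aeval lam P) (ℓ ^ N) := by
  induction P using MvPolynomial.induction_on with
  | C a =>
    refine ⟨2 * Nat.size a.natAbs, fun H ℓ hA hℓ lam _ => ?_⟩
    simpa using cov_int hA hℓ a
  | add p q hp hq =>
    obtain ⟨N, hN⟩ := hp
    obtain ⟨M, hM⟩ := hq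
    refine ⟨N + M + 1, fun H ℓ hA hℓ lam hl => ?_⟩
    rw [map_add]
    refine (Cov.add hA (hN H ℓ hA hℓ lam hl) (hM H ℓ hA hℓ lam hl)).mono ?_
    rw [pow_succ, pow_add]
  | mul_X p i hp =>
    obtain ⟨N, hN⟩ := hp
    refine ⟨N + 1, fun H ℓ hA hℓ lam hl => ?_⟩
    rw [map_mul, MvPolynomial.aeval_X]
    refine ((hN H ℓ hA hℓ lam hl).mul (hl i)).mono ?_
    rw [pow_succ]

/-! ## The set `H` -/

/-- `2 V - 2 V` -/
def Hs (V : Finset ℚ) : Finset ℚ := (2 • V) - (2 • V)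

/-- all the sets -/
def Bs (X Y : Finset ℚ) (W : Finset ℚ) : Finset ℚ := (-X) ∪ W.biUnion fun w => dil w Y

theorem pr {X B : Finset ℚ} (hX : X.Nonempty) {τ : ℝ} (h : ((X + B).card : ℝ) ≤ τ * X.card)
    (m n : ℕ) : (((m • B) - (n • B)).card : ℝ) ≤ τ ^ (m + n) * X.card := by
  have h1 := Finset.pluennecke_ruzsa_inequality_nsmul_sub_nsmul_add hX B m n
  have hXc : (0 : ℝ) < X.card := by exact_mod_cast hX.card_pos
  have h2 : (((m • B) - (n • B)).card : ℝ) ≤ (((X + B).card : ℝ) / X.card) ^ (m + n) * X.card := by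
    have h3 := (NNRat.cast_le (K := ℝ)).2 h1
    push_cast at h3
    exact h3
  refine h2.trans (mul_le_mul_of_nonneg_right ?_ hXc.le)
  refine pow_le_pow_left₀ (by positivity) ?_ _
  rw [div_le_iff₀ hXc]
  exact h

theorem two_sub (V : Finset ℚ) : Hs V = (V + V) - (V + V) := by
  rw [Hs, two_nsmul]

theorem dil_add (r : ℚ) (A B : Finset ℚ) : dil r (A + B) = dil r A + dil r B := by
  ext v
  simp only [mem_dil, mem_add]
  constructor
  · rintro ⟨y, ⟨a, ha, b, hb, rfl⟩, rfl⟩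
    exact ⟨r * a, ⟨a, ha, rfl⟩, r * b, ⟨b, hb, rfl⟩, by ring⟩
  · rintro ⟨_, ⟨a, ha, rfl⟩, _, ⟨b, hb, rfl⟩, rfl⟩
    exact ⟨a + b, ⟨a, ha, b, hb, rfl⟩, by ring⟩

theorem dil_sub (r : ℚ) (A B : Finset ℚ) : dil r (A - B) = dil r A - dil r B := by
  ext v
  simp only [mem_dil, mem_sub]
  constructor
  · rintro ⟨y, ⟨a, ha, b, hb, rfl⟩, rfl⟩
    exact ⟨r * a, ⟨a, ha, rfl⟩, r * b, ⟨b, hb, rfl⟩, by ring⟩
  · rintro ⟨_, ⟨a, ha, rfl⟩, _, ⟨b, hb, rfl⟩, rfl⟩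
    exact ⟨a - b, ⟨a, ha, b, hb, rfl⟩, by ring⟩

theorem dil_dil (r s : ℚ) (A : Finset ℚ) : dil r (dil s A) = dil (r * s) A := by
  ext v
  simp only [mem_dil]
  constructor
  · rintro ⟨_, ⟨a, ha, rfl⟩, rfl⟩
    exact ⟨a, ha, by ring⟩
  · rintro ⟨a, ha, rfl⟩
    exact ⟨s * a, ⟨a, ha, rfl⟩, by ring⟩

theorem dil_Hs (r : ℚ) (V : Finset ℚ) : dil r (Hs V) = Hs (dil r V) := by
  rw [two_sub, two_sub, dil_sub, dil_add]

theorem sub_sub_Hs {V : Finset ℚ} (hV : V.Nonempty) : V - V ⊆ Hs V := by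
  rw [two_sub]
  intro d hd
  obtain ⟨a, ha, b, hb, rfl⟩ := mem_sub.1 hd
  obtain ⟨c, hc⟩ := hV
  exact mem_sub.2 ⟨a + c, add_mem_add ha hc, b + c, add_mem_add hb hc, by ring⟩

/-- everything which is needed for the final count -/
theorem setup {X Y W : Finset ℚ} (hX : X.Nonempty) (hY : Y.Nonempty) {w₀ : ℚ} (hw₀ : w₀ ∈ W)
    (hW0 : w₀ ≠ 0) {τ σ : ℝ} (hτ : 1 ≤ τ) (h : ((X + Bs X Y W).card : ℝ) ≤ τ * X.card)
    (hXY : (X.card : ℝ) ≤ σ * Y.card) :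
    Apx (Hs (dil w₀ Y)) (σ * τ ^ 9) ∧ (∀ w ∈ W, Cov (Hs (dil w₀ Y)) (w / w₀) (σ * τ ^ 9)) ∧
      (∃ F : Finset ℚ, (F.card : ℝ) ≤ σ * τ ^ 9 ∧ ∀ x ∈ X, ∃ f ∈ F, x - f ∈ Hs (dil w₀ Y)) ∧
      ((Hs (dil w₀ Y) - Hs (dil w₀ Y)).card : ℝ) ≤ τ ^ 8 * X.card := by
  classical
  set V := dil w₀ Y with hV
  set B := Bs X Y W with hB
  have hVne : V.Nonempty := hY.image _
  have hVc : V.card = Y.card := card_image_of_injective _ (mul_right_injective₀ hW0)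
  have hXc : (0 : ℝ) < X.card := by exact_mod_cast hX.card_pos
  have hYc : (0 : ℝ) < Y.card := by exact_mod_cast hY.card_pos
  have hσ : 0 ≤ σ := by
    by_contra hσ
    have : σ * (Y.card : ℝ) < 0 := mul_neg_of_neg_of_pos (not_le.1 hσ) hYc
    linarith
  have hdilB : ∀ w ∈ W, dil w Y ⊆ B := fun w hw => by
    rw [hB, Bs]
    exact subset_union_right.trans' (subset_biUnion_of_mem (fun w => dil w Y) hw)
  have hVB : V ⊆ B := hdilB w₀ hw₀
  have hHB : ∀ {V' : Finset ℚ}, V' ⊆ B → Hs V' ⊆ (2 • B) - (2 • B) := by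
    intro V' hV'
    rw [Hs, two_nsmul, two_nsmul]
    exact sub_subset_sub (add_subset_add hV' hV') (add_subset_add hV' hV')
  have e1 : (2 • B - 2 • B) + (2 • B - 2 • B) + B = 5 • B - 4 • B := by
    rw [show (5 : ℕ) = 2 + 2 + 1 from rfl, show (4 : ℕ) = 2 + 2 from rfl, add_nsmul, add_nsmul,
      one_nsmul, sub_eq_add_neg, sub_eq_add_neg, neg_add]
    ac_rfl
  have e2 : (2 • B - 2 • B) + B = 3 • B - 2 • B := by
    rw [show (3 : ℕ) = 2 + 1 from rfl, add_nsmul,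
      one_nsmul, sub_eq_add_neg, sub_eq_add_neg]
    ac_rfl
  have e3 : (2 • B - 2 • B) - (2 • B - 2 • B) = 4 • B - 4 • B := by
    rw [show (4 : ℕ) = 2 + 2 from rfl, add_nsmul, sub_eq_add_neg, sub_eq_add_neg, sub_eq_add_neg,
      neg_add, neg_add, neg_neg]
    ac_rfl
  have hp5 : ∀ k ≤ 9, τ ^ k * X.card ≤ σ * τ ^ 9 * V.card := by
    intro k hk
    calc τ ^ k * X.card ≤ τ ^ 9 * (σ * Y.card) :=
          mul_le_mul (pow_le_pow_right₀ hτ hk) hXY hXc.le (by positivity)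
      _ = _ := by rw [hVc]; ring
  -- covering
  have cover : ∀ A : Finset ℚ, ((A + V).card : ℝ) ≤ σ * τ ^ 9 * V.card →
      ∃ F : Finset ℚ, (F.card : ℝ) ≤ σ * τ ^ 9 ∧ ∀ x ∈ A, ∃ f ∈ F, x - f ∈ Hs V := by
    intro A hA
    obtain ⟨F, _, h2, h3⟩ := Finset.ruzsa_covering_add hVne hA
    refine ⟨F, h2, fun x hx => ?_⟩
    obtain ⟨f, hf, d, hd, rfl⟩ := mem_add.1 (h3 hx)
    exact ⟨f, hf, by rw [add_sub_cancel_left]; exact sub_sub_Hs hVne hd⟩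
  refine ⟨⟨?_, ?_, ?_⟩, ?_, ?_, ?_⟩
  · obtain ⟨v, hv⟩ := hVne
    exact sub_sub_Hs ⟨v, hv⟩ (mem_sub.2 ⟨v, hv, v, hv, sub_self v⟩)
  · intro x hx
    rw [two_sub] at hx ⊢
    obtain ⟨a, ha, b, hb, rfl⟩ := mem_sub.1 hx
    exact mem_sub.2 ⟨b, hb, a, ha, by ring⟩
  · obtain ⟨F, h1, h2⟩ := cover (Hs V + Hs V) (by
      refine le_trans ?_ (hp5 9 le_rfl)
      refine le_trans ?_ (pr hX h 5 4)
      rw [← e1]
      exact_mod_cast card_le_card (add_subset_add (add_subset_add (hHB hVB) (hHB hVB)) hVB))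
    exact ⟨F, h1, fun a ha b hb => h2 _ (add_mem_add ha hb)⟩
  · intro w hw
    obtain ⟨F, h1, h2⟩ := cover (Hs (dil w Y)) (by
      refine le_trans ?_ (hp5 5 (by norm_num))
      refine le_trans ?_ (pr hX h 3 2)
      rw [← e2]
      exact_mod_cast card_le_card (add_subset_add (hHB (hdilB w hw)) hVB))
    refine ⟨F, h1, fun a ha => h2 _ ?_⟩
    have e4 : dil w Y = dil (w / w₀) V := by
      rw [hV, dil_dil, div_mul_cancel₀ _ hW0]
    rw [e4, ← dil_Hs]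
    exact mem_dil.2 ⟨a, ha, rfl⟩
  · refine cover X ?_
    refine le_trans ?_ (hp5 1 (by norm_num))
    rw [pow_one]
    refine le_trans ?_ h
    exact_mod_cast card_le_card (add_subset_add_left hVB)
  · refine le_trans ?_ (pr hX h 4 4)
    rw [← e3]
    exact_mod_cast card_le_card (sub_subset_sub (hHB hVB) (hHB hVB))

end Run7.h912.US
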