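import Pool.Agent.Run7.h912.US.Build

set_option autoImplicit false

/-! # Cartesian products are extremal near the exponent two -/

open Finset
open scoped Pointwise

namespace Run7.h912.US

/-- the largest of `|Y|` and the `|X + (r - s) Y|`, `r ∈ S` -/
def pbig (S : Finset ℚ) (s : ℚ) (X Y : Finset ℚ) : ℕ :=
  max Y.card (S.sup fun r => (image₂ (fun x y => x + (r - s) * y) X Y).card)

open Classical in
theorem prod_inj' (W : Finset ℚ) (hW0 : ∀ w ∈ W, w ≠ 0) (hW : W.Nonempty) (s : ℚ) (κ : ℝ)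
    (hκ2 : κ ≤ 2)
    (hprod : ∀ X Y : Finset ℚ, ((image₂ (fun x y => x - (1 + s) * y) X Y).card : ℝ) ≤
      (pbig (slopes s W) s X Y : ℝ) ^ κ) (hκ0 : 0 ≤ κ) (A : Finset (ℤ × ℤ)) (hA : A.Nonempty)
    (hinj : Set.InjOn (fun p : ℤ × ℤ => p.1 - p.2) (A : Set (ℤ × ℤ))) :
    (big (slopes s W) A : ℝ) ^ (2 - κ) ≤
      (4 * ((big (slopes s W) A : ℝ) ^ 2 / A.card)) ^ 29 := by
  set n : ℝ := (big (slopes s W) A : ℝ) with hn
  have hn1 : 1 ≤ n := by
    have := Pool.Agent.R470.AK.big_pos (S := slopes s W) hA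
    rw [hn]
    exact_mod_cast this
  have hn0 : 0 < n := by linarith
  have hAc : (0 : ℝ) < A.card := by exact_mod_cast hA.card_pos
  set g : ℤ × ℤ → ℚ × ℚ := fun p => ((p.1 : ℚ) + s * p.2, (p.2 : ℚ)) with hg
  have hginj : Function.Injective g := by
    intro p q h
    simp only [hg, Prod.mk.injEq] at h
    have h2 : p.2 = q.2 := by exact_mod_cast h.2
    have h1 : (p.1 : ℚ) = q.1 := by
      have := h.1
      rw [h2] at this
      exact add_right_cancel this
    exact Prod.ext (by exact_mod_cast h1) h2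
  set E : Finset (ℚ × ℚ) := A.image g with hE
  have hEc : E.card = A.card := card_image_of_injective _ hginj
  have hEne : E.Nonempty := hA.image _
  have hz : ((E.image Prod.fst).card : ℝ) ≤ n := by
    have h1 : E.image Prod.fst = proj s A := by
      rw [hE, image_image]
      rfl
    rw [h1, hn]
    exact_mod_cast proj_le_big (mem_insert_self _ _)
  have hy : ((E.image Prod.snd).card : ℝ) ≤ n := by
    have h1 : E.image Prod.snd = projInf A := by
      rw [hE, image_image]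
      rfl
    rw [h1, hn]
    exact_mod_cast le_max_left _ _
  have hw : ∀ w ∈ W, ((img w E).card : ℝ) ≤ n := by
    intro w hw
    have h1 : img w E = proj (s + w) A := by
      rw [hE, img, image_image]
      unfold proj
      congr 1
      funext p
      simp only [Function.comp, hg]
      ring
    rw [h1, hn]
    exact_mod_cast proj_le_big (mem_insert_of_mem (mem_image_of_mem _ hw))
  set L : ℝ := n ^ 2 / A.card with hL
  have hAn : (A.card : ℝ) ≤ n ^ 2 := by
    have h1 : E ⊆ E.image Prod.fst ×ˢ E.image Prod.snd := fun p hp =>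
      mem_product.2 ⟨mem_image_of_mem _ hp, mem_image_of_mem _ hp⟩
    have h2 := card_le_card h1
    rw [card_product, hEc] at h2
    calc (A.card : ℝ) ≤ (E.image Prod.fst).card * (E.image Prod.snd).card := by exact_mod_cast h2
      _ ≤ n * n := mul_le_mul hz hy (Nat.cast_nonneg _) hn0.le
      _ = _ := by ring
  have hL1 : 1 ≤ L := by rw [hL, le_div_iff₀ hAc]; linarith
  have hL0 : 0 < L := by linarith
  obtain ⟨X, Y, hX, hY, hXn, hYn, hXn', hYn', hXX, hXY, hG⟩ := core E hEne W hW hW0 n L hn0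
    hz hy hw hL0 (by
      rw [hL, hEc, div_mul_cancel₀ _ hAc.ne'])
  set B : ℝ := 2 ^ 17 * L ^ 12 * n with hB
  have hB1 : (1 : ℝ) ≤ 2 ^ 17 * L ^ 12 := by
    have : (1 : ℝ) ≤ L ^ 12 := one_le_pow₀ hL1
    linarith
  have hnB : n ≤ B := by
    calc n = 1 * n := (one_mul n).symm
      _ ≤ _ := mul_le_mul_of_nonneg_right hB1 hn0.le
  have hpb : (pbig (slopes s W) s X Y : ℝ) ≤ B := by
    have h1 : pbig (slopes s W) s X Y ≤ ⌊B⌋₊ := by
      refine max_le (Nat.le_floor (hYn.trans hnB)) (Finset.sup_le fun r hr => Nat.le_floor ?_)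
      rw [slopes, mem_insert, mem_image] at hr
      rcases hr with rfl | ⟨w, hwW, rfl⟩
      · refine le_trans ?_ (hXn.trans hnB)
        have h2 : image₂ (fun x y => x + (r - r) * y) X Y ⊆ X := by
          intro v hv
          obtain ⟨x, hx, y, _, rfl⟩ := mem_image₂.1 hv
          simpa using hx
        exact_mod_cast card_le_card h2
      · refine le_trans ?_ (hXY w hwW)
        have h2 : image₂ (fun x y => x + (s + w - s) * y) X Y ⊆ X + dil w Y := by
          intro v hv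
          obtain ⟨x, hx, y, hy, rfl⟩ := mem_image₂.1 hv
          have h3 : x + (s + w - s) * y = x + w * y := by ring
          rw [h3]
          exact add_mem_add hx (mem_dil.2 ⟨y, hy, rfl⟩)
        exact_mod_cast card_le_card h2
    exact (Nat.cast_le.2 h1).trans (Nat.floor_le (by positivity))
  have hGle : ((E.filter fun p => p.1 ∈ X ∧ p.2 ∈ Y).card : ℝ) ≤
      (image₂ (fun x y => x - (1 + s) * y) X Y).card := by
    have h1 : (E.filter fun p => p.1 ∈ X ∧ p.2 ∈ Y).card ≤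
        (image₂ (fun x y => x - (1 + s) * y) X Y).card := by
      apply card_le_card_of_injOn (fun p : ℚ × ℚ => p.1 - (1 + s) * p.2)
      · intro p hp
        rw [mem_coe, mem_filter] at hp
        exact mem_image₂_of_mem hp.2.1 hp.2.2
      · intro p hp q hq hpq
        rw [mem_coe, mem_filter] at hp hq
        obtain ⟨a, ha, rfl⟩ := mem_image.1 hp.1
        obtain ⟨b, hb, rfl⟩ := mem_image.1 hq.1
        simp only [hg] at hpq
        have h2 : (a.1 : ℚ) - a.2 = b.1 - b.2 := by linear_combination hpq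
        have h3 : a.1 - a.2 = b.1 - b.2 := by exact_mod_cast h2
        rw [hinj ha hb h3]
    exact_mod_cast h1
  have h1 : n ^ 2 ≤ 2 ^ 41 * L ^ 29 * n ^ κ := by
    have h2 : B ^ κ ≤ (2 ^ 17 * L ^ 12) ^ 2 * n ^ κ := by
      rw [hB, Real.mul_rpow (by positivity) hn0.le]
      refine mul_le_mul_of_nonneg_right ?_ (Real.rpow_nonneg hn0.le _)
      calc (2 ^ 17 * L ^ 12) ^ κ ≤ (2 ^ 17 * L ^ 12) ^ (2 : ℝ) :=
            Real.rpow_le_rpow_of_exponent_le hB1 hκ2
        _ = _ := Real.rpow_two _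
    have h3 : ((E.filter fun p => p.1 ∈ X ∧ p.2 ∈ Y).card : ℝ) ≤ (2 ^ 17 * L ^ 12) ^ 2 * n ^ κ :=
      ((hGle.trans (hprod X Y)).trans (Real.rpow_le_rpow (Nat.cast_nonneg _) hpb hκ0)).trans h2
    calc n ^ 2 ≤ 128 * L ^ 5 * _ := hG
      _ ≤ 128 * L ^ 5 * ((2 ^ 17 * L ^ 12) ^ 2 * n ^ κ) :=
          mul_le_mul_of_nonneg_left h3 (by positivity)
      _ = _ := by ring
  have hnκ : 0 < n ^ κ := Real.rpow_pos_of_pos hn0 _
  have h4 : n ^ (2 - κ) * n ^ κ = n ^ 2 := by
    rw [← Real.rpow_add hn0, sub_add_cancel, Real.rpow_two]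
  have h5 : n ^ (2 - κ) * n ^ κ ≤ (4 * L) ^ 29 * n ^ κ := by
    rw [h4]
    refine h1.trans (mul_le_mul_of_nonneg_right ?_ hnκ.le)
    rw [mul_pow]
    refine mul_le_mul_of_nonneg_right (by norm_num) (by positivity)
  exact le_of_mul_le_mul_right h5 hnκ

/-- the bound with a constant -/
theorem prod_const (W : Finset ℚ) (hW0 : ∀ w ∈ W, w ≠ 0) (hW : W.Nonempty) (s : ℚ) (κ : ℝ)
    (hκ0 : 0 ≤ κ) (hκ2 : κ ≤ 2)
    (hprod : ∀ X Y : Finset ℚ, ((image₂ (fun x y => x - (1 + s) * y) X Y).card : ℝ) ≤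
      (pbig (slopes s W) s X Y : ℝ) ^ κ) (A : Finset (ℤ × ℤ)) (hA : A.Nonempty) :
    ((proj (-1) A).card : ℝ) ≤ 4 * (big (slopes s W) A : ℝ) ^ (2 - (2 - κ) / 29) := by
  classical
  obtain ⟨A₁, hsub, hcard, hinj, hne⟩ := reps A
  have hA₁ := hne hA
  have h1 := prod_inj' W hW0 hW s κ hκ2 hprod hκ0 A₁ hA₁ hinj
  set n₁ : ℝ := (big (slopes s W) A₁ : ℝ) with hn₁
  set n : ℝ := (big (slopes s W) A : ℝ) with hn
  rw [hcard] at h1
  set M : ℝ := ((proj (-1) A).card : ℝ) with hM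
  have hM0 : 0 < M := by
    rw [hM, ← hcard]
    exact_mod_cast hA₁.card_pos
  have hn10 : 0 < n₁ := by
    have : 1 ≤ big (slopes s W) A₁ := Pool.Agent.R470.AK.big_pos hA₁
    rw [hn₁]
    exact_mod_cast this
  have hnn : n₁ ≤ n := by
    rw [hn₁, hn]
    exact_mod_cast big_mono_set _ hsub
  have hn0 : 0 < n := hn10.trans_le hnn
  have h2 : n₁ ^ ((2 - κ) / 29) ≤ 4 * (n₁ ^ 2 / M) := by
    have h3 : (0 : ℝ) ≤ 4 * (n₁ ^ 2 / M) := by positivity
    have h4 : n₁ ^ ((2 - κ) / 29) = (n₁ ^ (2 - κ)) ^ ((1 : ℝ) / 29) := by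
      rw [← Real.rpow_mul hn10.le]
      congr 1
      ring
    rw [h4]
    calc (n₁ ^ (2 - κ)) ^ ((1 : ℝ) / 29) ≤ ((4 * (n₁ ^ 2 / M)) ^ 29) ^ ((1 : ℝ) / 29) :=
          Real.rpow_le_rpow (Real.rpow_nonneg hn10.le _) h1 (by positivity)
      _ = 4 * (n₁ ^ 2 / M) := by
          rw [← Real.rpow_natCast, ← Real.rpow_mul h3]
          norm_num
  have h4 : M * n₁ ^ ((2 - κ) / 29) ≤ 4 * n₁ ^ 2 := by
    calc M * n₁ ^ ((2 - κ) / 29) ≤ M * (4 * (n₁ ^ 2 / M)) := mul_le_mul_of_nonneg_left h2 hM0.le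
      _ = 4 * n₁ ^ 2 := by field_simp
  have h5 : n₁ ^ 2 = n₁ ^ (2 - (2 - κ) / 29) * n₁ ^ ((2 - κ) / 29) := by
    rw [← Real.rpow_add hn10]
    norm_num
  have hr : 0 < n₁ ^ ((2 - κ) / 29) := Real.rpow_pos_of_pos hn10 _
  have h6 : M ≤ 4 * n₁ ^ (2 - (2 - κ) / 29) := by
    have h7 : M * n₁ ^ ((2 - κ) / 29) ≤ (4 * n₁ ^ (2 - (2 - κ) / 29)) * n₁ ^ ((2 - κ) / 29) := by
      calc M * n₁ ^ ((2 - κ) / 29) ≤ 4 * n₁ ^ 2 := h4
        _ = _ := by rw [h5]; ring
    exact le_of_mul_le_mul_right h7 hr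
  refine h6.trans (mul_le_mul_of_nonneg_left ?_ (by norm_num))
  refine Real.rpow_le_rpow hn10.le hnn ?_
  linarith

/-- **Cartesian products are extremal** -/
theorem prod_extremal (S : Finset ℚ) (s : ℚ) (hs : s ∈ S) (hS : 2 ≤ S.card) (κ : ℝ)
    (hκ0 : 0 ≤ κ) (hκ2 : κ ≤ 2)
    (hprod : ∀ X Y : Finset ℚ, ((image₂ (fun x y => x - (1 + s) * y) X Y).card : ℝ) ≤
      (pbig S s X Y : ℝ) ^ κ) (A : Finset (ℤ × ℤ)) :
    ((proj (-1) A).card : ℝ) ≤ (big S A : ℝ) ^ (2 - (2 - κ) / 29) := by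
  classical
  set W : Finset ℚ := (S.erase s).image fun r => r - s with hWdef
  have hSW : slopes s W = S := by
    ext r
    simp only [slopes, hWdef, mem_insert, mem_image, mem_erase]
    constructor
    · rintro (rfl | ⟨_, ⟨u, ⟨_, hu⟩, rfl⟩, rfl⟩)
      · exact hs
      · have : s + (u - s) = u := by ring
        rwa [this]
    · intro hr
      by_cases h : r = s
      · exact Or.inl h
      · exact Or.inr ⟨r - s, ⟨r, ⟨h, hr⟩, rfl⟩, by ring⟩
  have hW0 : ∀ w ∈ W, w ≠ 0 := by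
    intro w hw
    obtain ⟨r, hr, rfl⟩ := mem_image.1 hw
    rw [mem_erase] at hr
    exact sub_ne_zero.2 hr.1
  have hWne : W.Nonempty := by
    refine Nonempty.image ?_ _
    rw [← card_pos, card_erase_of_mem hs]
    omega
  rw [← hSW] at hprod ⊢
  by_contra hcon
  rw [not_le] at hcon
  have hA : A.Nonempty := by
    by_contra h
    rw [Finset.not_nonempty_iff_eq_empty] at h
    subst h
    have h1 : (proj (-1) ∅).card = 0 := rfl
    rw [h1] at hcon
    have := Real.rpow_nonneg (Nat.cast_nonneg (α := ℝ) (big (slopes s W) ∅))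
      (2 - (2 - κ) / 29)
    simp only [Nat.cast_zero] at hcon
    linarith
  have hκ : (0 : ℝ) ≤ 2 - (2 - κ) / 29 := by linarith
  obtain ⟨A', hA'⟩ := amp _ _ hκ A hA hcon 4
  have hne : A'.Nonempty := by
    by_contra h
    rw [Finset.not_nonempty_iff_eq_empty] at h
    subst h
    have h1 : (proj (-1) ∅).card = 0 := rfl
    rw [h1] at hA'
    have h2 := Real.rpow_nonneg (Nat.cast_nonneg (α := ℝ) (big (slopes s W) ∅))
      (2 - (2 - κ) / 29)
    simp only [Nat.cast_zero] at hA'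
    linarith
  exact absurd (prod_const W hW0 hWne s κ hκ0 hκ2 hprod A' hne) (not_le.2 hA')

/-- the converse: Cartesian products are special sets of points -/
theorem all_prod (S : Finset ℚ) (s : ℚ) (κ : ℝ)
    (hall : ∀ A : Finset (ℤ × ℤ), ((proj (-1) A).card : ℝ) ≤ (big S A : ℝ) ^ κ) (X Y : Finset ℚ) :
    ((image₂ (fun x y => x - (1 + s) * y) X Y).card : ℝ) ≤ (pbig S s X Y : ℝ) ^ κ := by
  classical
  rcases (X ×ˢ Y).eq_empty_or_nonempty with h0 | h0
  · have h1 : image₂ (fun x y => x - (1 + s) * y) X Y = ∅ := by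
      rw [image₂, h0, image_empty]
    rw [h1, card_empty, Nat.cast_zero]
    exact Real.rpow_nonneg (Nat.cast_nonneg _) _
  obtain ⟨A, hA1, hA2, hA3⟩ := Pool.Agent.R470.AK.int_points
    ((X ×ˢ Y).image (fun p => (p.1 - s * p.2, p.2)))
  have hproj : ∀ r : ℚ, (proj r A).card = (image₂ (fun x y => x + (r - s) * y) X Y).card := by
    intro r
    have h1 : ((X ×ˢ Y).image (fun p => (p.1 - s * p.2, p.2))).image
        (fun p : ℚ × ℚ => p.1 + r * p.2) = image₂ (fun x y => x + (r - s) * y) X Y := by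
      rw [image_image, image₂]
      congr 1
      funext p
      simp only [Function.comp, Function.uncurry]
      ring
    rw [← h1]
    exact hA2 r
  have hinf : (projInf A).card = Y.card := by
    rw [hA3, image_image]
    congr 1
    ext y
    simp only [mem_image, Function.comp, mem_product]
    constructor
    · rintro ⟨p, hp, rfl⟩
      exact hp.2
    · intro hy
      obtain ⟨p, hp⟩ := h0
      rw [mem_product] at hp
      exact ⟨(p.1, y), ⟨hp.1, hy⟩, rfl⟩
  have hbig : big S A = pbig S s X Y := by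
    show max (projInf A).card (S.sup fun r => (proj r A).card) = _
    rw [hinf, pbig]
    congr 1
    exact Finset.sup_congr rfl fun r _ => hproj r
  have h2 := hall A
  rw [hbig, hproj] at h2
  have h3 : image₂ (fun x y => x + (-1 - s) * y) X Y = image₂ (fun x y => x - (1 + s) * y) X Y := by
    congr 1
    funext x y
    ring
  rwa [h3] at h2

end Run7.h912.US
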