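import Pool.Agent.Run7.h912.US.Build

set_option autoImplicit false

/-! # Progressions of slopes -/

open Finset

namespace Run7.h912.US

/-- the slopes `s, s + w, …, s + L w` -/
def prog (s w : ℚ) (L : ℕ) : Finset ℚ := (range (L + 1)).image fun j : ℕ => s + j * w

/-- the height of a rational number -/
def ht (q : ℚ) : ℕ := max q.num.natAbs q.den

theorem one_le_ht (q : ℚ) : 1 ≤ ht q := le_max_of_le_right q.den_pos

/-- the differences -/
def Wp (w : ℚ) (L : ℕ) : Finset ℚ := (Icc 1 L).image fun j : ℕ => (j : ℚ) * w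

theorem slopes_Wp (s w : ℚ) (L : ℕ) : slopes s (Wp w L) = prog s w L := by
  ext r
  simp only [slopes, Wp, prog, mem_insert, mem_image, mem_Icc, mem_range]
  constructor
  · rintro (rfl | ⟨_, ⟨j, ⟨h1, h2⟩, rfl⟩, rfl⟩)
    · exact ⟨0, by omega, by simp⟩
    · exact ⟨j, by omega, rfl⟩
  · rintro ⟨j, hj, rfl⟩
    rcases Nat.eq_zero_or_pos j with rfl | h
    · left; simp
    · right; exact ⟨_, ⟨j, ⟨h, by omega⟩, rfl⟩, rfl⟩

/-- digits in base `L + 1` -/
theorem cov_digits {H : Finset ℚ} {ℓ : ℝ} (hA : Apx H ℓ) (hℓ : 1 ≤ ℓ) {L : ℕ} (hL : 1 ≤ L)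
    (hC : ∀ j : ℕ, 1 ≤ j → j ≤ L → Cov H (j : ℚ) ℓ) (n : ℕ) :
    Cov H (n : ℚ) (ℓ ^ (4 * (Nat.log (L + 1) n + 1))) := by
  induction n using Nat.strong_induction_on with
  | _ n ih =>
    have hdig : ∀ d : ℕ, d ≤ L → Cov H (d : ℚ) ℓ := by
      intro d hd
      rcases Nat.eq_zero_or_pos d with rfl | h
      · simpa using (cov_zero hA.1).mono hℓ
      · exact hC d h hd
    rcases Nat.lt_or_ge n (L + 1) with h | h
    · refine (hdig n (by omega)).mono ?_
      calc ℓ = ℓ ^ 1 := (pow_one ℓ).symm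
        _ ≤ _ := pow_le_pow_right₀ hℓ (by omega)
    · have hb : Cov H ((L + 1 : ℕ) : ℚ) (ℓ * 1 * ℓ) := by
        have := Cov.add hA (hC L hL le_rfl) (cov_one H)
        push_cast
        exact this
      have h1 := ih (n / (L + 1)) (Nat.div_lt_self (by omega) (by omega))
      have h2 := Cov.add hA (hb.mul h1) (hdig (n % (L + 1)) (by
        have := Nat.mod_lt n (show 0 < L + 1 by omega)
        omega))
      have e : (((L + 1 : ℕ) : ℚ) * ((n / (L + 1) : ℕ) : ℚ) + ((n % (L + 1) : ℕ) : ℚ)) = n := by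
        exact_mod_cast Nat.div_add_mod n (L + 1)
      rw [e] at h2
      refine h2.mono ?_
      have hlog : Nat.log (L + 1) n = Nat.log (L + 1) (n / (L + 1)) + 1 :=
        Nat.log_of_one_lt_of_le (by omega) h
      rw [hlog]
      calc ℓ * 1 * ℓ * ℓ ^ (4 * (Nat.log (L + 1) (n / (L + 1)) + 1)) * ℓ * ℓ
          = ℓ ^ (4 * (Nat.log (L + 1) (n / (L + 1)) + 1) + 4) := by ring
        _ ≤ _ := pow_le_pow_right₀ hℓ (by omega)

theorem ctl_int {w : ℚ} (hw : w ≠ 0) {L : ℕ} (hL : 1 ≤ L) (a : ℤ) (h : ℕ) (ha : a.natAbs ≤ h) :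
    Ctl (Wp w L) w a (4 * (Nat.log (L + 1) h + 1)) := by
  intro H ℓ hA hℓ hC
  have hC' : ∀ j : ℕ, 1 ≤ j → j ≤ L → Cov H (j : ℚ) ℓ := by
    intro j h1 h2
    have := hC ((j : ℚ) * w) (mem_image.2 ⟨j, mem_Icc.2 ⟨h1, h2⟩, rfl⟩)
    rwa [mul_div_cancel_right₀ _ hw] at this
  have h1 : Cov H (a.natAbs : ℚ) (ℓ ^ (4 * (Nat.log (L + 1) h + 1))) := by
    refine (cov_digits hA hℓ hL hC' a.natAbs).mono ?_
    have := Nat.log_mono_right (b := L + 1) ha
    exact pow_le_pow_right₀ hℓ (by omega)
  rcases Int.natAbs_eq a with h2 | h2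
  · have e : ((a : ℤ) : ℚ) = (a.natAbs : ℚ) := by
      conv_lhs => rw [h2]
      simp
    rw [e]
    exact h1
  · have e : ((a : ℤ) : ℚ) = -(a.natAbs : ℚ) := by
      conv_lhs => rw [h2]
      simp
    rw [e]
    exact h1.neg hA.2.1

/-- **upper bound for progressions of slopes** -/
theorem prog_upper (s w : ℚ) (hw : w ≠ 0) (L : ℕ) (hL : 1 ≤ L) (A : Finset (ℤ × ℤ)) :
    ((proj (-1) A).card : ℝ) ≤ (big (prog s w L) A : ℝ) ^
      (2 - 1 / 1419 * (Real.log (L + 1) / Real.log (ht ((1 + s) / w) * (L + 1)))) := by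
  set q : ℚ := (1 + s) / w with hq
  set h : ℕ := ht q with hh
  set N : ℕ := 4 * (Nat.log (L + 1) h + 1) with hN
  have hW0 : ∀ x ∈ Wp w L, x ≠ 0 := by
    intro x hx
    obtain ⟨j, hj, rfl⟩ := mem_image.1 hx
    rw [mem_Icc] at hj
    exact mul_ne_zero (by exact_mod_cast (by omega : j ≠ 0)) hw
  have hmem : w ∈ Wp w L := mem_image.2 ⟨1, mem_Icc.2 ⟨le_rfl, hL⟩, by simp⟩
  have hden : ((q.den : ℤ) : ℚ) ≠ 0 := by exact_mod_cast q.den_pos.ne'
  have hrel : (1 + s) * ((q.den : ℤ) : ℚ) = w * (q.num : ℚ) := by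
    have h1 : (q.num : ℚ) = q * ((q.den : ℤ) : ℚ) := by
      have := Rat.mul_den_eq_num q
      push_cast
      exact this.symm
    rw [h1, hq]
    field_simp
  have hup := upper (Wp w L) hW0 hmem N s (q.num : ℚ) ((q.den : ℤ) : ℚ) hden hrel
    (ctl_int hw hL q.num h (le_max_left _ _))
    (ctl_int hw hL (q.den : ℤ) h (by rw [Int.natAbs_natCast]; exact le_max_right _ _)) A
  rw [slopes_Wp] at hup
  rcases A.eq_empty_or_nonempty with rfl | hA
  · have h1 : (proj (-1) ∅).card = 0 := rfl
    rw [h1, Nat.cast_zero]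
    exact Real.rpow_nonneg (Nat.cast_nonneg _) _
  refine hup.trans ?_
  have hb : (1 : ℝ) ≤ big (prog s w L) A := by
    exact_mod_cast (Pool.Agent.R470.AK.big_pos hA : 1 ≤ big (prog s w L) A)
  refine Real.rpow_le_rpow_of_exponent_le hb ?_
  have hh1 : 1 ≤ h := one_le_ht q
  have hLR : (1 : ℝ) ≤ L := by exact_mod_cast hL
  have hlogL : 0 < Real.log (L + 1) := Real.log_pos (by linarith)
  have hhR : (1 : ℝ) ≤ h := by exact_mod_cast hh1
  have hlogh : 0 ≤ Real.log h := Real.log_nonneg hhR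
  have hsum : Real.log (h * (L + 1)) = Real.log h + Real.log (L + 1) :=
    Real.log_mul (by positivity) (by positivity)
  have hnat : (Nat.log (L + 1) h : ℝ) * Real.log (L + 1) ≤ Real.log h := by
    have h1 : (L + 1) ^ Nat.log (L + 1) h ≤ h := Nat.pow_log_le_self _ (by omega)
    have h2 : Real.log ((L + 1 : ℝ) ^ Nat.log (L + 1) h) ≤ Real.log h :=
      Real.log_le_log (by positivity) (by exact_mod_cast h1)
    rwa [Real.log_pow] at h2
  rw [hsum]
  have hE : ((129 * (2 * N + 3) : ℕ) : ℝ) * Real.log (L + 1) ≤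
      1419 * (Real.log h + Real.log (L + 1)) := by
    rw [hN]
    push_cast
    nlinarith
  have hEpos : (0 : ℝ) < ((129 * (2 * N + 3) : ℕ) : ℝ) := by
    have : 0 < 129 * (2 * N + 3) := by omega
    exact_mod_cast this
  have hS : 0 < Real.log h + Real.log (L + 1) := by linarith
  have h3 : 1 / 1419 * (Real.log (L + 1) / (Real.log h + Real.log (L + 1))) ≤
      1 / ((129 * (2 * N + 3) : ℕ) : ℝ) := by
    rw [div_mul_div_comm, one_mul, div_le_div_iff₀ (by positivity) hEpos, one_mul]
    linarith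
  linarith

/-- the lower bound -/
theorem prog_lower (s w : ℚ) (hw : w ≠ 0) (L : ℕ) (S : Finset ℚ) (hS : S ⊆ prog s w L) (κ : ℝ)
    (hκ : κ < 2 - 2 * (Real.log (L + 1) / Real.log (ht ((1 + s) / w) * (L + 1)))) (hL : 1 ≤ L)
    (C : ℝ) : ∃ A : Finset (ℤ × ℤ), C * (big S A : ℝ) ^ κ < (proj (-1) A).card := by
  classical
  set q : ℚ := (1 + s) / w with hq
  set h : ℕ := ht q with hh
  have hh1 : 1 ≤ h := one_le_ht q
  have hLR : (1 : ℝ) ≤ L := by exact_mod_cast hL
  have hhR : (1 : ℝ) ≤ h := by exact_mod_cast hh1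
  rcases lt_or_ge κ 0 with hneg | hκ0
  · -- a negative exponent
    obtain ⟨N, hN⟩ := exists_nat_gt |C|
    refine ⟨(range N).image (fun i : ℕ => ((i : ℤ), (0 : ℤ))), ?_⟩
    have hN0 : 0 < N := by
      have : (0 : ℝ) < N := (abs_nonneg C).trans_lt hN
      exact_mod_cast this
    have hne : ((range N).image (fun i : ℕ => ((i : ℤ), (0 : ℤ)))).Nonempty :=
      (nonempty_range_iff.2 hN0.ne').image _
    have hb : (1 : ℝ) ≤ big S ((range N).image (fun i : ℕ => ((i : ℤ), (0 : ℤ)))) := by
      exact_mod_cast (Pool.Agent.R470.AK.big_pos hne :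
        1 ≤ big S ((range N).image (fun i : ℕ => ((i : ℤ), (0 : ℤ)))))
    have hc : (proj (-1) ((range N).image (fun i : ℕ => ((i : ℤ), (0 : ℤ))))).card = N := by
      unfold Pool.Agent.R470.AK.proj
      rw [image_image, card_image_of_injective, card_range]
      intro a b hab
      simp only [Function.comp] at hab
      have h1 : (a : ℚ) = b := by linear_combination hab
      exact_mod_cast h1
    rw [hc]
    have h1 : (big S ((range N).image (fun i : ℕ => ((i : ℤ), (0 : ℤ)))) : ℝ) ^ κ ≤ 1 :=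
      Real.rpow_le_one_of_one_le_of_nonpos hb hneg.le
    calc C * (big S ((range N).image (fun i : ℕ => ((i : ℤ), (0 : ℤ)))) : ℝ) ^ κ
        ≤ |C| * (big S ((range N).image (fun i : ℕ => ((i : ℤ), (0 : ℤ)))) : ℝ) ^ κ :=
          mul_le_mul_of_nonneg_right (le_abs_self C) (Real.rpow_nonneg (Nat.cast_nonneg _) _)
      _ ≤ |C| * 1 := mul_le_mul_of_nonneg_left h1 (abs_nonneg _)
      _ < N := by rw [mul_one]; exact hN
  -- the box
  set Zs : Finset ℚ := (range h).image (fun i : ℕ => (i : ℚ)) with hZs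
  set Ys : Finset ℚ := (range h).image (fun i : ℕ => (i : ℚ) / w) with hYs
  set F' : Finset ℚ := (range (h * (L + 1))).image (fun i : ℕ => (i : ℚ)) with hF'
  have hZc : Zs.card = h := by
    rw [hZs, card_image_of_injective _ Nat.cast_injective, card_range]
  have hYc : Ys.card = h := by
    rw [hYs, card_image_of_injective, card_range]
    intro a b hab
    have h1 : (a : ℚ) = b := by
      have := congrArg (fun x => x * w) hab
      simpa [div_mul_cancel₀ _ hw] using this
    exact_mod_cast h1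
  have hF'c : F'.card = h * (L + 1) := by
    rw [hF', card_image_of_injective _ Nat.cast_injective, card_range]
  have hr : (range h).Nonempty := nonempty_range_iff.2 (by omega)
  have hhle : h ≤ h * (L + 1) := Nat.le_mul_of_pos_right h (by omega)
  obtain ⟨A, hA, hbig, hdiff⟩ := build Zs Ys F' (Wp w L) s (hr.image _) (hr.image _)
    (by
      intro z hz
      obtain ⟨i, hi, rfl⟩ := mem_image.1 hz
      exact mem_image.2 ⟨i, mem_range.2 ((mem_range.1 hi).trans_le hhle), rfl⟩)
    (by rw [hYc, hF'c]; exact hhle)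
    (by
      intro z hz y hy x hx
      obtain ⟨i, hi, rfl⟩ := mem_image.1 hz
      obtain ⟨j, hj, rfl⟩ := mem_image.1 hy
      obtain ⟨l, hl, rfl⟩ := mem_image.1 hx
      rw [mem_range] at hi hj
      rw [mem_Icc] at hl
      refine mem_image.2 ⟨i + l * j, mem_range.2 ?_, ?_⟩
      · have h1 : l * j ≤ L * (h - 1) := Nat.mul_le_mul hl.2 (by omega)
        have h2 : L * (h - 1) + L = L * h := by
          have : h - 1 + 1 = h := by omega
          calc L * (h - 1) + L = L * (h - 1 + 1) := by ring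
            _ = L * h := by rw [this]
        have h3 : h * (L + 1) = L * h + h := by ring
        omega
      · push_cast
        field_simp)
    (by
      intro z hz z' hz' y hy y' hy' he
      obtain ⟨i, hi, rfl⟩ := mem_image.1 hz
      obtain ⟨i', hi', rfl⟩ := mem_image.1 hz'
      obtain ⟨j, hj, rfl⟩ := mem_image.1 hy
      obtain ⟨j', hj', rfl⟩ := mem_image.1 hy'
      rw [mem_range] at hi hi' hj hj'
      by_contra hne
      have hjj : (j : ℚ) ≠ j' := fun h1 => hne (by rw [h1])
      have h1 : q * ((j : ℤ) - (j' : ℤ) : ℤ) = ((i : ℤ) - (i' : ℤ) : ℤ) := by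
        push_cast
        rw [hq]
        have h2 : (1 + s) / w * ((j : ℚ) - j') = (1 + s) * ((j : ℚ) / w - j' / w) := by
          field_simp
        rw [h2, ← he]
      have hjz : ((j : ℤ) - (j' : ℤ)) ≠ 0 := by
        intro h2
        apply hjj
        have : (j : ℤ) = j' := by omega
        exact_mod_cast this
      -- numerator and denominator are bounded
      have h3 : q.num * ((j : ℤ) - j') = ((i : ℤ) - i') * q.den := by
        have h4 : (q.num : ℚ) * (((j : ℤ) - (j' : ℤ) : ℤ) : ℚ) =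
            (((i : ℤ) - (i' : ℤ) : ℤ) : ℚ) * (q.den : ℚ) := by
          rw [← h1, ← Rat.mul_den_eq_num q]
          ring
        exact_mod_cast h4
      have hcop : IsCoprime q.num (q.den : ℤ) := by
        rw [Int.isCoprime_iff_nat_coprime, Int.natAbs_natCast]
        exact q.reduced
      have hd : (q.den : ℤ) ∣ (j : ℤ) - j' := by
        have : (q.den : ℤ) ∣ q.num * ((j : ℤ) - j') := ⟨(i : ℤ) - i', by rw [h3]; ring⟩
        exact hcop.symm.dvd_of_dvd_mul_left this
      have hn : q.num ∣ (i : ℤ) - i' := by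
        have : q.num ∣ ((i : ℤ) - i') * q.den := ⟨(j : ℤ) - j', h3.symm⟩
        exact hcop.dvd_of_dvd_mul_right this
      have hden_lt : q.den < h := by
        have h5 := Int.le_of_dvd (abs_pos.2 hjz) ((dvd_abs _ _).2 hd)
        have h6 : |(j : ℤ) - j'| < h := by
          rw [abs_lt]; constructor <;> omega
        omega
      have hnum_lt : q.num.natAbs < h := by
        by_cases hi0 : (i : ℤ) - i' = 0
        · rw [hi0, zero_mul] at h3
          have h7 : q.num = 0 := by
            rcases mul_eq_zero.1 h3 with h8 | h8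
            · exact h8
            · exact absurd h8 hjz
          rw [h7]
          simp
          omega
        · have h5 := Int.le_of_dvd (abs_pos.2 hi0) ((dvd_abs _ _).2 hn)
          have h5' : |q.num| ≤ |(i : ℤ) - i'| := by
            have h9 := Int.le_of_dvd (abs_pos.2 hi0) ((abs_dvd_abs _ _).2 hn)
            exact h9
          have h6 : |(i : ℤ) - i'| < h := by
            rw [abs_lt]; constructor <;> omega
          rw [Int.abs_eq_natAbs] at h5'
          omega
      have : h < h := by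
        conv_lhs => rw [hh, ht]
        exact max_lt hnum_lt hden_lt
      exact lt_irrefl _ this)
  rw [slopes_Wp] at hbig
  have hbig' : big S A ≤ h * (L + 1) := by
    rw [← hF'c]
    refine le_trans ?_ hbig
    exact max_le_max le_rfl (Finset.sup_mono hS)
  refine amp S κ hκ0 A hA ?_ C
  have hlogL : 0 < Real.log (L + 1) := Real.log_pos (by linarith)
  have hlogh : 0 ≤ Real.log h := Real.log_nonneg hhR
  have hsum : Real.log (h * (L + 1)) = Real.log h + Real.log (L + 1) :=
    Real.log_mul (by positivity) (by positivity)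
  rw [hsum] at hκ
  have hS0 : 0 < Real.log h + Real.log (L + 1) := by linarith
  have h4 : κ * (Real.log h + Real.log (L + 1)) < 2 * Real.log h := by
    have h5 := mul_lt_mul_of_pos_right hκ hS0
    have h6 : (2 - 2 * (Real.log (L + 1) / (Real.log h + Real.log (L + 1)))) *
        (Real.log h + Real.log (L + 1)) = 2 * Real.log h := by
      field_simp
      ring
    linarith
  have h7 : ((h * (L + 1) : ℕ) : ℝ) ^ κ < ((h * h : ℕ) : ℝ) := by
    have hp1 : (0 : ℝ) < ((h * (L + 1) : ℕ) : ℝ) := by positivity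
    have hp2 : (0 : ℝ) < ((h * h : ℕ) : ℝ) := by positivity
    rw [← Real.log_lt_log_iff (Real.rpow_pos_of_pos hp1 _) hp2, Real.log_rpow hp1]
    push_cast
    rw [hsum, Real.log_mul (by positivity) (by positivity)]
    linarith
  rw [hdiff, hZc, hYc]
  refine lt_of_le_of_lt (Real.rpow_le_rpow (Nat.cast_nonneg _) ?_ hκ0) h7
  exact_mod_cast hbig'

end Run7.h912.US
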