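import Pool.Agent.Run7.h912.US.Cov
import Pool.Agent.N326.AK.Equiv
import Pool.Agent.R470.AK.Lac3

set_option autoImplicit false

/-! # The upper bound -/

open Finset
open scoped Pointwise

namespace Run7.h912.US

export Pool.Agent.R470.AK (proj projInf big)

/-- the slopes `s` and `s + w`, `w ∈ W` -/
def slopes (s : ℚ) (W : Finset ℚ) : Finset ℚ := insert s (W.image fun w => s + w)

/-- bounds for the two covering numbers -/
def Ctl (W : Finset ℚ) (w₀ P : ℚ) (N : ℕ) : Prop :=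
  ∀ (H : Finset ℚ) (ℓ : ℝ), Apx H ℓ → 1 ≤ ℓ → (∀ w ∈ W, Cov H (w / w₀) ℓ) → Cov H P (ℓ ^ N)

theorem proj_le_big {S : Finset ℚ} {A : Finset (ℤ × ℤ)} {r : ℚ} (hr : r ∈ S) :
    (proj r A).card ≤ big S A :=
  le_max_of_le_right (Finset.le_sup (f := fun r => (proj r A).card) hr)

theorem numA (K L : ℝ) (e : ℕ) (he : 10 ≤ e) (hK : 32 ≤ K) (hL : 0 ≤ L) :
    32 * K ^ 9 * L ^ e ≤ (K * L) ^ e := by
  have h2 : 32 * K ^ 9 ≤ K ^ e := by
    calc 32 * K ^ 9 ≤ K * K ^ 9 := mul_le_mul_of_nonneg_right hK (by positivity)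
      _ = K ^ 10 := by ring
      _ ≤ K ^ e := pow_le_pow_right₀ (by linarith) he
  rw [mul_pow]
  exact mul_le_mul_of_nonneg_right h2 (by positivity)

theorem numB (K L : ℝ) (e : ℕ) (he : 5 ≤ e) (hK : 128 ≤ K) (hL : 1 ≤ L) :
    128 * L ^ 5 ≤ (K * L) ^ e := by
  have h0 : 1 ≤ K * L := one_le_mul_of_one_le_of_one_le (by linarith) hL
  calc 128 * L ^ 5 ≤ K ^ 5 * L ^ 5 := by
        refine mul_le_mul_of_nonneg_right ?_ (by positivity)
        calc (128 : ℝ) ≤ K := hK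
          _ = K ^ 1 := (pow_one _).symm
          _ ≤ K ^ 5 := pow_le_pow_right₀ (by linarith) (by norm_num)
    _ = (K * L) ^ 5 := (mul_pow _ _ _).symm
    _ ≤ _ := pow_le_pow_right₀ h0 he

theorem numC (x : ℝ) (e m : ℕ) : x ^ e * (x ^ e) ^ (2 * m + 2) = x ^ (e * (2 * m + 3)) := by
  rw [← pow_mul, ← pow_add]
  congr 1
  ring

open Classical in
theorem upper_inj (W : Finset ℚ) (hW0 : ∀ w ∈ W, w ≠ 0) {w₀ : ℚ} (hw₀ : w₀ ∈ W) (N : ℕ)
    (s P Q : ℚ) (hQ : Q ≠ 0) (hPQ : (1 + s) * Q = w₀ * P) (hcP : Ctl W w₀ P N)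
    (hcQ : Ctl W w₀ Q N) (A : Finset (ℤ × ℤ)) (hA : A.Nonempty)
    (hinj : Set.InjOn (fun p : ℤ × ℤ => p.1 - p.2) (A : Set (ℤ × ℤ))) :
    (big (slopes s W) A : ℝ) ≤
      (((W.card + 1 : ℝ) * 2 ^ 19) * ((big (slopes s W) A : ℝ) ^ 2 / A.card)) ^ (129 * (2 * N + 3)) := by
  set n : ℝ := (big (slopes s W) A : ℝ) with hn
  have hn1 : 1 ≤ n := by
    have := Pool.Agent.R470.AK.big_pos (S := slopes s W) hA
    rw [hn]
    exact_mod_cast this
  have hn0 : 0 < n := by linarith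
  have hAc : (0 : ℝ) < A.card := by exact_mod_cast hA.card_pos
  set g : ℤ × ℤ → ℚ × ℚ := fun p => ((p.1 : ℚ) + s * p.2, (p.2 : ℚ)) with hg
  have hginj : Function.Injective g := by
    intro p q h
    simp only [hg, Prod.mk.injEq] at h
    have h2 : p.2 = q.2 := by exact_mod_cast h.2
    have h1 : (p.1 : ℚ) = q.1 := by
      have := h.1
      rw [h2] at this
      exact add_right_cancel this
    exact Prod.ext (by exact_mod_cast h1) h2
  set E : Finset (ℚ × ℚ) := A.image g with hE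
  have hEc : E.card = A.card := card_image_of_injective _ hginj
  have hEne : E.Nonempty := hA.image _
  have hz : ((E.image Prod.fst).card : ℝ) ≤ n := by
    have h1 : E.image Prod.fst = proj s A := by
      rw [hE, image_image]
      rfl
    rw [h1, hn]
    exact_mod_cast proj_le_big (mem_insert_self _ _)
  have hy : ((E.image Prod.snd).card : ℝ) ≤ n := by
    have h1 : E.image Prod.snd = projInf A := by
      rw [hE, image_image]
      rfl
    rw [h1, hn]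
    exact_mod_cast le_max_left _ _
  have hw : ∀ w ∈ W, ((img w E).card : ℝ) ≤ n := by
    intro w hw
    have h1 : img w E = proj (s + w) A := by
      rw [hE, img, image_image]
      unfold proj
      congr 1
      funext p
      simp only [Function.comp, hg]
      ring
    rw [h1, hn]
    exact_mod_cast proj_le_big (mem_insert_of_mem (mem_image_of_mem _ hw))
  set L : ℝ := n ^ 2 / A.card with hL
  have hAn : (A.card : ℝ) ≤ n ^ 2 := by
    have h1 : E ⊆ E.image Prod.fst ×ˢ E.image Prod.snd := fun p hp =>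
      mem_product.2 ⟨mem_image_of_mem _ hp, mem_image_of_mem _ hp⟩
    have h2 := card_le_card h1
    rw [card_product, hEc] at h2
    calc (A.card : ℝ) ≤ (E.image Prod.fst).card * (E.image Prod.snd).card := by exact_mod_cast h2
      _ ≤ n * n := mul_le_mul hz hy (Nat.cast_nonneg _) hn0.le
      _ = _ := by ring
  have hL1 : 1 ≤ L := by rw [hL, le_div_iff₀ hAc]; linarith
  have hL0 : 0 < L := by linarith
  obtain ⟨X, Y, hX, hY, hXn, hYn, hXn', hYn', hXX, hXY, hG⟩ := core E hEne W ⟨w₀, hw₀⟩ hW0 n L hn0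
    hz hy hw hL0 (by
      rw [hL, hEc, div_mul_cancel₀ _ hAc.ne'])
  have hXc : (0 : ℝ) < X.card := by exact_mod_cast hX.card_pos
  set K₀ : ℝ := (W.card + 1 : ℝ) * 2 ^ 19 with hK₀
  have hWc0 : (0 : ℝ) ≤ W.card := Nat.cast_nonneg _
  have hK1 : (2 : ℝ) ^ 19 ≤ K₀ := by rw [hK₀]; nlinarith
  have hK0 : 0 < K₀ := by positivity
  set τ : ℝ := K₀ * L ^ 14 with hτ
  have hτ1 : 1 ≤ τ := by
    rw [hτ]
    have h1 : (1 : ℝ) ≤ L ^ 14 := one_le_pow₀ hL1
    have h2 : (1 : ℝ) ≤ K₀ := le_trans (by norm_num) hK1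
    exact one_le_mul_of_one_le_of_one_le h2 h1
  have hBs : ((X + Bs X Y W).card : ℝ) ≤ τ * X.card := by
    have h1 : X + Bs X Y W = (X - X) ∪ W.biUnion (fun w => X + dil w Y) := by
      rw [Bs, add_union, sub_eq_add_neg]
      congr 1
      ext v
      simp only [mem_add, mem_biUnion]
      constructor
      · rintro ⟨x, hx, z, ⟨w, hw, hz⟩, rfl⟩
        exact ⟨w, hw, x, hx, z, hz, rfl⟩
      · rintro ⟨w, hw, x, hx, z, hz, rfl⟩
        exact ⟨x, hx, z, ⟨w, hw, hz⟩, rfl⟩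
    have h2 : ((X + Bs X Y W).card : ℝ) ≤ (X - X).card + ∑ w ∈ W, ((X + dil w Y).card : ℝ) := by
      rw [h1]
      calc (((X - X) ∪ W.biUnion (fun w => X + dil w Y)).card : ℝ)
          ≤ (X - X).card + (W.biUnion (fun w => X + dil w Y)).card := by
            exact_mod_cast card_union_le _ _
        _ ≤ _ := by
            have := card_biUnion_le (s := W) (t := fun w => X + dil w Y)
            have h3 : ((W.biUnion (fun w => X + dil w Y)).card : ℝ) ≤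
                ∑ w ∈ W, ((X + dil w Y).card : ℝ) := by exact_mod_cast this
            linarith
    have h3 : ∑ w ∈ W, ((X + dil w Y).card : ℝ) ≤ W.card * (2 ^ 17 * L ^ 12 * n) := by
      rw [← nsmul_eq_mul]
      exact Finset.sum_le_card_nsmul _ _ _ hXY
    have h4 : 2 ^ 10 * L ^ 8 * n ≤ 2 ^ 17 * L ^ 12 * n := by
      have h5 : L ^ 8 ≤ L ^ 12 := pow_le_pow_right₀ hL1 (by norm_num)
      have h6 : (0 : ℝ) ≤ L ^ 8 := by positivity
      nlinarith [mul_le_mul_of_nonneg_right h5 hn0.le, mul_nonneg h6 hn0.le]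
    calc ((X + Bs X Y W).card : ℝ) ≤ 2 ^ 17 * L ^ 12 * n + W.card * (2 ^ 17 * L ^ 12 * n) := by
          linarith
      _ = (W.card + 1) * (2 ^ 17 * L ^ 12) * n := by ring
      _ ≤ (W.card + 1) * (2 ^ 17 * L ^ 12) * (4 * L ^ 2 * X.card) :=
          mul_le_mul_of_nonneg_left hXn' (by positivity)
      _ = τ * X.card := by rw [hτ, hK₀]; ring
  have hXY' : (X.card : ℝ) ≤ (32 * L ^ 3) * Y.card := hXn.trans hYn'
  obtain ⟨hApx, hCov, ⟨FX, hFX, hFX'⟩, hHH⟩ := setup hX hY hw₀ (hW0 w₀ hw₀) hτ1 hBs hXY'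
  set H := Hs (dil w₀ Y) with hH
  set ℓ : ℝ := 32 * L ^ 3 * τ ^ 9 with hℓ
  have hτ8 : τ ^ 8 ≤ ℓ := by
    have h1 : τ ^ 8 ≤ τ ^ 9 := pow_le_pow_right₀ hτ1 (by norm_num)
    have h2 : (1 : ℝ) ≤ 32 * L ^ 3 := by
      have : (1 : ℝ) ≤ L ^ 3 := one_le_pow₀ hL1
      linarith
    have h3 : (0 : ℝ) ≤ τ ^ 9 := by positivity
    calc τ ^ 8 ≤ 1 * τ ^ 9 := by linarith
      _ ≤ _ := mul_le_mul_of_nonneg_right h2 h3
  have hℓ1 : 1 ≤ ℓ := le_trans (one_le_pow₀ hτ1) hτ8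
  obtain ⟨FP, hFP, hFP'⟩ := hcP H ℓ hApx hℓ1 hCov
  obtain ⟨FQ, hFQ, hFQ'⟩ := hcQ H ℓ hApx hℓ1 hCov
  -- the count
  have hcount : ((E.filter fun p => p.1 ∈ X ∧ p.2 ∈ Y).card : ℝ) ≤
      ℓ * ℓ ^ N * ℓ ^ N * (ℓ * n) := by
    obtain ⟨y₀, hy₀⟩ := hY
    set T : Finset ℚ := (((FX ×ˢ FQ) ×ˢ FP).image
      (fun t => Q * t.1.1 + t.1.2 - P * (w₀ * y₀) - t.2)) + (H - H) with hT
    have h1 : (E.filter fun p => p.1 ∈ X ∧ p.2 ∈ Y).card ≤ T.card := by
      apply card_le_card_of_injOn (fun p => Q * (p.1 - (1 + s) * p.2))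
      · rintro ⟨z, y⟩ hp
        rw [mem_coe, mem_filter] at hp
        obtain ⟨_, hz, hy⟩ := hp
        obtain ⟨f₁, hf₁, hh₁⟩ := hFX' z hz
        obtain ⟨f₂, hf₂, hh₂⟩ := hFQ' _ hh₁
        have hh₃ : w₀ * y - w₀ * y₀ ∈ H := by
          apply sub_sub_Hs (⟨w₀ * y₀, mem_dil.2 ⟨y₀, hy₀, rfl⟩⟩ : (dil w₀ Y).Nonempty)
          exact sub_mem_sub (mem_dil.2 ⟨y, hy, rfl⟩) (mem_dil.2 ⟨y₀, hy₀, rfl⟩)
        obtain ⟨f₃, hf₃, hh₄⟩ := hFP' _ hh₃
        rw [mem_coe, hT]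
        refine mem_add.2 ⟨_, mem_image.2 ⟨((f₁, f₂), f₃), mem_product.2
          ⟨mem_product.2 ⟨hf₁, hf₂⟩, hf₃⟩, rfl⟩, _, sub_mem_sub hh₂ hh₄, ?_⟩
        simp only
        have : Q * ((1 + s) * y) = P * (w₀ * y) := by
          calc Q * ((1 + s) * y) = ((1 + s) * Q) * y := by ring
            _ = _ := by rw [hPQ]; ring
        linear_combination this
      · intro p hp q hq h
        rw [mem_coe, mem_filter] at hp hq
        obtain ⟨⟨a, ha, rfl⟩, _⟩ := And.imp_left mem_image.1 hp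
        obtain ⟨⟨b, hb, rfl⟩, _⟩ := And.imp_left mem_image.1 hq
        simp only [hg] at h
        have h2 := mul_left_cancel₀ hQ h
        have h3 : (a.1 : ℚ) - a.2 = b.1 - b.2 := by linear_combination h2
        have h4 : a.1 - a.2 = b.1 - b.2 := by exact_mod_cast h3
        rw [hinj ha hb h4]
    have h2 : (T.card : ℝ) ≤ (FX.card * FQ.card * FP.card) * ((H - H).card : ℝ) := by
      calc (T.card : ℝ) ≤ ((((FX ×ˢ FQ) ×ˢ FP).image
            (fun t => Q * t.1.1 + t.1.2 - P * (w₀ * y₀) - t.2)).card : ℝ) * (H - H).card := by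
            exact_mod_cast card_add_le
        _ ≤ (((FX ×ˢ FQ) ×ˢ FP).card : ℝ) * (H - H).card := by
            refine mul_le_mul_of_nonneg_right ?_ (Nat.cast_nonneg _)
            exact_mod_cast card_image_le
        _ = _ := by rw [card_product, card_product]; push_cast; ring
    calc ((E.filter fun p => p.1 ∈ X ∧ p.2 ∈ Y).card : ℝ) ≤ T.card := by exact_mod_cast h1
      _ ≤ _ := h2
      _ ≤ ℓ * ℓ ^ N * ℓ ^ N * (ℓ * n) := by
          have hℓ0 : 0 ≤ ℓ := by linarith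
          refine mul_le_mul (mul_le_mul (mul_le_mul hFX hFQ (Nat.cast_nonneg _) hℓ0) hFP
            (Nat.cast_nonneg _) (by positivity)) ?_ (Nat.cast_nonneg _) (by positivity)
          exact hHH.trans (mul_le_mul hτ8 hXn hXc.le hℓ0)
  have hfin : n ≤ 128 * L ^ 5 * ℓ ^ (2 * N + 2) := by
    have h1 : n * n ≤ (128 * L ^ 5 * ℓ ^ (2 * N + 2)) * n := by
      calc n * n = n ^ 2 := by ring
        _ ≤ _ := hG
        _ ≤ 128 * L ^ 5 * (ℓ * ℓ ^ N * ℓ ^ N * (ℓ * n)) :=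
            mul_le_mul_of_nonneg_left hcount (by positivity)
        _ = _ := by ring
    exact le_of_mul_le_mul_right h1 hn0
  have hKL : 1 ≤ K₀ * L := one_le_mul_of_one_le_of_one_le (le_trans (by norm_num) hK1) hL1
  have hℓ2 : ℓ ≤ (K₀ * L) ^ 129 := by
    have h1 : ℓ = 32 * K₀ ^ 9 * L ^ 129 := by rw [hℓ, hτ]; ring
    rw [h1]
    exact numA K₀ L 129 (by norm_num) (le_trans (by norm_num) hK1) hL0.le
  have h5 : 128 * L ^ 5 ≤ (K₀ * L) ^ 129 :=
    numB K₀ L 129 (by norm_num) (le_trans (by norm_num) hK1) hL1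
  calc n ≤ 128 * L ^ 5 * ℓ ^ (2 * N + 2) := hfin
    _ ≤ (K₀ * L) ^ 129 * ((K₀ * L) ^ 129) ^ (2 * N + 2) :=
        mul_le_mul h5 (pow_le_pow_left₀ (by linarith) hℓ2 _) (by positivity) (by positivity)
    _ = (K₀ * L) ^ (129 * (2 * N + 3)) := numC _ _ _

end Run7.h912.US
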